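import Pool.Graph.R_pool_sql_team_seeded_2aa45f1a.Q98.CG.All

/-!
# Many congruence subgroups from an abelian quotient of a congruence subgroup
-/

set_option autoImplicit false
set_option linter.style.haveILetI false

namespace Pool.Agent.Helper19.GR

open Pool.Agent.Q98.CG

variable {G : Type} [Group G]

/-- the automorphisms `ψ` with `q ∘ ψ = q` -/
def Fx {Q : Type} [Group Q] (q : G →* Q) : Subgroup (MulAut G) where
  carrier := {ψ | ∀ x, q (ψ x) = q x}
  one_mem' := fun _ => rfl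
  mul_mem' := by
    intro a b ha hb g
    rw [MulAut.mul_apply, ha, hb]
  inv_mem' := by
    intro a ha g
    have := ha (a⁻¹ g)
    rw [MulAut.apply_inv_self] at this
    exact this.symm

lemma hom_eq' {Q : Type} [Group Q] {c : ℕ} {gen : Fin c → G}
    (hgen : Subgroup.closure (Set.range gen) = ⊤)
    {f f' : G →* Q} (h : ∀ k, f (gen k) = f' (gen k)) : f = f' := by
  refine MonoidHom.eq_of_eqOn_dense hgen ?_
  rintro _ ⟨k, rfl⟩
  exact h k

lemma finite_hom' {Q : Type} [Group Q] [Finite Q] {c : ℕ} {gen : Fin c → G}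
    (hgen : Subgroup.closure (Set.range gen) = ⊤) : Finite (G →* Q) := by
  refine Finite.of_injective (fun f : G →* Q => fun k : Fin c => f (gen k)) ?_
  intro f f' h
  exact hom_eq' hgen fun k => congrFun h k

lemma index_Fx {Q : Type} [Group Q] [Finite Q] {c : ℕ} {gen : Fin c → G}
    (hgen : Subgroup.closure (Set.range gen) = ⊤) (X : G →* Q) :
    (Fx X).index ≠ 0 ∧ (Fx X).index ≤ Nat.card Q ^ c := by
  let F : MulAut G ⧸ Fx X → (Fin c → Q) := fun q => fun k => X ((q.out)⁻¹ (gen k))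
  have hF : Function.Injective F := by
    intro q q' h
    have h1 : X.comp ((q.out)⁻¹ : MulAut G).toMonoidHom
        = X.comp ((q'.out)⁻¹ : MulAut G).toMonoidHom := hom_eq' hgen fun k => congrFun h k
    have h2 : (q.out)⁻¹ * q'.out ∈ Fx X := by
      intro g
      have h3 := DFunLike.congr_fun h1 (q'.out g)
      change X ((q.out)⁻¹ (q'.out g)) = X ((q'.out)⁻¹ (q'.out g)) at h3
      rw [MulAut.mul_apply, h3, MulAut.inv_apply_self]
    rw [← QuotientGroup.eq, QuotientGroup.out_eq', QuotientGroup.out_eq'] at h2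
    exact h2
  have hfin : Finite (MulAut G ⧸ Fx X) := Finite.of_injective F hF
  haveI : (Fx X).FiniteIndex := Subgroup.finiteIndex_of_finite_quotient
  refine ⟨Subgroup.FiniteIndex.index_ne_zero, ?_⟩
  have h3 := Nat.card_le_card_of_injective F hF
  rw [Nat.card_fun, Nat.card_eq_fintype_card (α := Fin c), Fintype.card_fin] at h3
  exact h3

lemma exists_char {Q : Type} [Group Q] [Finite Q] {c : ℕ} {gen : Fin c → G}
    (hgen : Subgroup.closure (Set.range gen) = ⊤) (X : G →* Q) :
    ∃ L : Subgroup G, L.Characteristic ∧ L.FiniteIndex ∧ L ≤ X.ker := by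
  haveI := finite_hom' (Q := Q) hgen
  refine ⟨⨅ f : G →* Q, f.ker, ?_, ?_, iInf_le _ X⟩
  · rw [Subgroup.characteristic_iff_le_comap]
    intro φ g hg
    rw [Subgroup.mem_comap, Subgroup.mem_iInf]
    intro f
    rw [Subgroup.mem_iInf] at hg
    exact hg (f.comp φ.toMonoidHom)
  · haveI : ∀ f : G →* Q, f.ker.FiniteIndex := fun f => by
      haveI : Finite f.range := inferInstance
      exact Subgroup.finiteIndex_ker f
    exact Subgroup.finiteIndex_iInf fun f => inferInstance

variable {p k : ℕ} {κ : Type} [Fintype κ]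

/-- `(v, w) ↦ v - M w` -/
def RM (M : κ → Fin k → ZMod p) :
    Multiplicative ((Fin k → ZMod p) × (κ → ZMod p)) →* Multiplicative (Fin k → ZMod p) :=
  AddMonoidHom.toMultiplicative
    { toFun := fun z => fun i => z.1 i - ∑ j, z.2 j * M j i
      map_zero' := by
        funext i
        simp
      map_add' := by
        intro z z'
        funext i
        simp only [Prod.fst_add, Prod.snd_add, Pi.add_apply, add_mul, Finset.sum_add_distrib]
        ring }

lemma RM_apply (M : κ → Fin k → ZMod p) (v : Fin k → ZMod p) (w : κ → ZMod p) :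
    RM M (Multiplicative.ofAdd (v, w)) =
      Multiplicative.ofAdd (fun i => v i - ∑ j, w j * M j i) := rfl

lemma RM_surj (M : κ → Fin k → ZMod p) : Function.Surjective (RM M) := by
  intro v
  refine ⟨Multiplicative.ofAdd (Multiplicative.toAdd v, 0), ?_⟩
  rw [RM_apply]
  simp only [Pi.zero_apply, zero_mul, Finset.sum_const_zero, sub_zero]
  rfl

/-- the congruence subgroup given by `M` -/
def HM (Γ0 : Subgroup (MulAut G))
    (J : Γ0 →* Multiplicative ((Fin k → ZMod p) × (κ → ZMod p))) (M : κ → Fin k → ZMod p) :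
    Subgroup (MulAut G) := (((RM M).comp J).ker.map Γ0.subtype) ⊔ Inn G

instance : (Inn G).Normal := by
  constructor
  rintro _ ⟨x, rfl⟩ φ
  refine ⟨φ x, ?_⟩
  ext y
  simp [MulAut.conj_apply]

lemma mem_HM {Γ0 : Subgroup (MulAut G)}
    {J : Γ0 →* Multiplicative ((Fin k → ZMod p) × (κ → ZMod p))} {M : κ → Fin k → ZMod p}
    {ψ : MulAut G} : ψ ∈ HM Γ0 J M ↔
      ∃ f : Γ0, RM M (J f) = 1 ∧ ∃ y : G, ψ = f.1 * MulAut.conj y := by
  unfold HM
  rw [← SetLike.mem_coe, Subgroup.mul_normal, Set.mem_mul]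
  constructor
  · rintro ⟨a, ha, b, ⟨y, rfl⟩, rfl⟩
    rw [SetLike.mem_coe, Subgroup.mem_map] at ha
    obtain ⟨f, hf, rfl⟩ := ha
    exact ⟨f, hf, y, rfl⟩
  · rintro ⟨f, hf, y, rfl⟩
    exact ⟨f.1, ⟨f, hf, rfl⟩, MulAut.conj y, ⟨y, rfl⟩, rfl⟩

theorem many_graph [NeZero p] (Γ0 : Subgroup (MulAut G)) (i0 : ℕ) (h0 : Γ0.index ≠ 0)
    (h1 : Γ0.index ≤ i0)
    (J : Γ0 →* Multiplicative ((Fin k → ZMod p) × (κ → ZMod p))) (hJ : Function.Surjective J)
    (hInn : ∀ (y : G) (h : MulAut.conj y ∈ Γ0), J ⟨MulAut.conj y, h⟩ = 1)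
    (L : Subgroup G) (hL : L.Characteristic) (hLf : L.FiniteIndex)
    (hLJ : ∀ ψ : MulAut G, (∀ x, ψ x * x⁻¹ ∈ L) → ∃ h : ψ ∈ Γ0, J ⟨ψ, h⟩ = 1) :
    ((p ^ (k * Fintype.card κ) : ℕ) : ℕ∞) ≤ cong G (i0 * p ^ k) := by
  classical
  have hcard : ((p ^ (k * Fintype.card κ) : ℕ) : ℕ∞) =
      (Set.univ : Set (κ → Fin k → ZMod p)).encard := by
    rw [Set.encard_univ, ENat.card_eq_coe_fintype_card, Fintype.card_fun, Fintype.card_fun,
      ZMod.card, Fintype.card_fin, pow_mul]
  rw [hcard]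
  refine Set.encard_le_encard_of_injOn (f := HM Γ0 J) ?_ ?_
  · intro M _
    have hker : ((RM M).comp J).ker.index = p ^ k := by
      have hs : Function.Surjective ((RM M).comp J) := by
        intro v
        obtain ⟨z, hz⟩ := RM_surj M v
        obtain ⟨f, hf⟩ := hJ z
        exact ⟨f, by rw [MonoidHom.comp_apply, hf, hz]⟩
      rw [Subgroup.index_ker, MonoidHom.range_eq_top.2 hs]
      rw [Nat.card_congr (Subgroup.topEquiv.toEquiv)]
      rw [Nat.card_eq_fintype_card, Fintype.card_multiplicative, Fintype.card_fun, ZMod.card,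
        Fintype.card_fin]
    have hidx : (((RM M).comp J).ker.map Γ0.subtype).index = p ^ k * Γ0.index := by
      rw [Subgroup.index_map_subtype, hker]
    have hle : ((RM M).comp J).ker.map Γ0.subtype ≤ HM Γ0 J M := le_sup_left
    have hdvd := Subgroup.index_dvd_of_le hle
    rw [hidx] at hdvd
    have hpos : 0 < p ^ k * Γ0.index :=
      Nat.mul_pos (pow_pos (Nat.pos_of_ne_zero (NeZero.ne p)) _) (Nat.pos_of_ne_zero h0)
    refine ⟨le_sup_right, ⟨L, hL, hLf, ?_⟩, ?_, ?_⟩
    · rintro ψ ⟨y, hy⟩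
      haveI := hL
      have hn : L.Normal := inferInstance
      obtain ⟨h, hj⟩ := hLJ (MulAut.conj y⁻¹ * ψ) (by
        intro x
        rw [MulAut.mul_apply, MulAut.conj_apply, inv_inv]
        have h2 := hn.conj_mem _ (hy x) y⁻¹
        rw [inv_inv] at h2
        have h3 : y⁻¹ * ψ x * y * x⁻¹ = y⁻¹ * (ψ x * (y * x * y⁻¹)⁻¹) * y := by group
        rw [h3]
        exact h2)
      have hc : MulAut.conj y ∈ HM Γ0 J M := (le_sup_right : Inn G ≤ _) ⟨y, rfl⟩
      have hd : MulAut.conj y⁻¹ * ψ ∈ HM Γ0 J M :=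
        mem_HM.2 ⟨⟨_, h⟩, by rw [hj, map_one], 1, by simp⟩
      have := Subgroup.mul_mem _ hc hd
      rwa [← mul_assoc, ← map_mul, mul_inv_cancel, map_one, one_mul] at this
    · intro h
      rw [h, zero_dvd_iff] at hdvd
      omega
    · refine (Nat.le_of_dvd hpos hdvd).trans ?_
      rw [mul_comm]
      exact Nat.mul_le_mul_right _ h1
  · intro M _ M' _ h
    funext j i
    obtain ⟨f, hf⟩ := hJ (Multiplicative.ofAdd (M j, Pi.single j 1))
    have h2 : f.1 ∈ HM Γ0 J M := by
      refine mem_HM.2 ⟨f, ?_, 1, by simp⟩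
      rw [hf, RM_apply]
      refine congrArg Multiplicative.ofAdd ?_
      funext i
      simp [Pi.single_apply]
    have h2' := h2
    rw [h, mem_HM] at h2'
    obtain ⟨f', hf', y, hy⟩ := h2'
    have hy2 : MulAut.conj y ∈ Γ0 := by
      have : MulAut.conj y = f'.1⁻¹ * f.1 := by rw [hy]; group
      rw [this]
      exact Γ0.mul_mem (Γ0.inv_mem f'.2) f.2
    have h3 : f = f' * ⟨MulAut.conj y, hy2⟩ := Subtype.ext hy
    have h4 : J f = J f' := by rw [h3, map_mul, hInn, mul_one]
    rw [← h4, hf, RM_apply] at hf'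
    have h5 := congrFun (congrArg Multiplicative.toAdd hf') i
    simp [Pi.single_apply] at h5
    have h6 : M j i - M' j i = 0 := h5
    exact sub_eq_zero.1 h6

end Pool.Agent.Helper19.GR
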