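import Pool.Agent.Helper19.GR.Growth

/-!
# Congruence subgroups with large elementary abelian quotients
-/

set_option autoImplicit false
set_option linter.style.haveILetI false

namespace Pool.Agent.Helper19.GR

open Pool.Agent.Q98.CG

section
variable {G A : Type} [Group G] [CommGroup A]

/-- extension by the inner automorphisms -/
lemma extend (Γ0 : Subgroup (MulAut G)) (J : Γ0 →* A)
    (hInn : ∀ (y : G) (h : MulAut.conj y ∈ Γ0), J ⟨MulAut.conj y, h⟩ = 1) :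
    ∃ f : (Γ0 ⊔ Inn G : Subgroup (MulAut G)) →* A,
      ∀ (h : (Γ0 ⊔ Inn G : Subgroup (MulAut G))) (φ : Γ0) (y : G),
        h.1 = φ.1 * MulAut.conj y → f h = J φ := by
  have hex : ∀ h : (Γ0 ⊔ Inn G : Subgroup (MulAut G)), ∃ φ : Γ0, ∃ y : G,
      h.1 = φ.1 * MulAut.conj y := by
    rintro ⟨h, hh⟩
    rw [← SetLike.mem_coe, Subgroup.mul_normal, Set.mem_mul] at hh
    obtain ⟨a, ha, b, ⟨y, rfl⟩, rfl⟩ := hh
    exact ⟨⟨a, ha⟩, y, rfl⟩
  choose F Y hF using hex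
  have hwd : ∀ (h : (Γ0 ⊔ Inn G : Subgroup (MulAut G))) (φ : Γ0) (y : G),
        h.1 = φ.1 * MulAut.conj y → J (F h) = J φ := by
    intro h φ y hy
    have h1 : MulAut.conj (y * (Y h)⁻¹) = φ.1⁻¹ * (F h).1 := by
      have h2 := hF h
      rw [hy] at h2
      have h3 : (F h).1 = φ.1 * MulAut.conj y * (MulAut.conj (Y h))⁻¹ := by rw [h2]; group
      rw [h3, map_mul, map_inv]
      group
    have h4 : MulAut.conj (y * (Y h)⁻¹) ∈ Γ0 := by
      rw [h1]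
      exact Γ0.mul_mem (Γ0.inv_mem φ.2) (F h).2
    have h5 : F h = φ * ⟨_, h4⟩ := by
      refine Subtype.ext ?_
      show (F h).1 = φ.1 * MulAut.conj (y * (Y h)⁻¹)
      rw [h1]
      group
    rw [h5, map_mul, hInn, mul_one]
  refine ⟨MonoidHom.mk' (fun h => J (F h)) ?_, hwd⟩
  intro a b
  show J (F (a * b)) = J (F a) * J (F b)
  rw [← map_mul]
  refine hwd (a * b) (F a * F b) ((F b).1⁻¹ (Y a) * Y b) ?_
  show a.1 * b.1 = (F a).1 * (F b).1 * _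
  rw [hF a, hF b, map_mul]
  have h1 : MulAut.conj ((F b).1⁻¹ (Y a)) = (F b).1⁻¹ * MulAut.conj (Y a) * (F b).1 := by
    ext x
    simp [MulAut.conj_apply]
  rw [h1]
  group

lemma big_of [Finite A] (Γ0 : Subgroup (MulAut G)) (i0 : ℕ) (h0 : Γ0.index ≠ 0)
    (h1 : Γ0.index ≤ i0) (J : Γ0 →* A) (hJ : Function.Surjective J)
    (hInn : ∀ (y : G) (h : MulAut.conj y ∈ Γ0), J ⟨MulAut.conj y, h⟩ = 1)
    (L : Subgroup G) (hL : L.Characteristic) (hLf : L.FiniteIndex)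
    (hLJ : ∀ ψ : MulAut G, (∀ x, ψ x * x⁻¹ ∈ L) → ∃ h : ψ ∈ Γ0, J ⟨ψ, h⟩ = 1) :
    ∃ H : Subgroup (MulAut G), (∀ x, MulAut.conj x ∈ H) ∧ H.index ≠ 0 ∧ H.index ≤ i0 ∧
      ∃ f : H →* A, Function.Surjective f ∧ (∀ h : H, (∃ x : G, h.1 = MulAut.conj x) → f h = 1) ∧
        IsCong G (f.ker.map H.subtype) := by
  obtain ⟨f, hf⟩ := extend Γ0 J hInn
  have hd := Subgroup.index_dvd_of_le (le_sup_left : Γ0 ≤ Γ0 ⊔ Inn G)
  refine ⟨Γ0 ⊔ Inn G, fun x => (le_sup_right : Inn G ≤ _) ⟨x, rfl⟩, ?_, ?_, f, ?_, ?_, ?_⟩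
  · intro h
    rw [h, zero_dvd_iff] at hd
    exact h0 hd
  · exact (Nat.le_of_dvd (Nat.pos_of_ne_zero h0) hd).trans h1
  · intro a
    obtain ⟨φ, rfl⟩ := hJ a
    exact ⟨⟨φ.1, (le_sup_left : Γ0 ≤ _) φ.2⟩, hf _ φ 1 (by simp)⟩
  · rintro h ⟨x, hx⟩
    rw [hf h 1 x (by rw [hx]; simp), map_one]
  · refine ⟨L, hL, hLf, ?_⟩
    rintro ψ ⟨y, hy⟩
    haveI := hL
    have hn : L.Normal := inferInstance
    obtain ⟨h, hj⟩ := hLJ (ψ * MulAut.conj y⁻¹) (by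
      intro x
      rw [MulAut.mul_apply]
      have h2 := hy (MulAut.conj y⁻¹ x)
      have h3 : y * MulAut.conj y⁻¹ x * y⁻¹ = x := by
        rw [MulAut.conj_apply]
        group
      rwa [h3] at h2)
    have hm : ψ ∈ Γ0 ⊔ Inn G := by
      have e : ψ = (ψ * MulAut.conj y⁻¹) * MulAut.conj y := by
        rw [map_inv]
        group
      rw [e]
      exact Subgroup.mul_mem _ ((le_sup_left : Γ0 ≤ _) h) ((le_sup_right : Inn G ≤ _) ⟨y, rfl⟩)
    refine ⟨⟨ψ, hm⟩, ?_, rfl⟩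
    rw [SetLike.mem_coe, MonoidHom.mem_ker, hf ⟨ψ, hm⟩ ⟨_, h⟩ y (by
      show ψ = ψ * MulAut.conj y⁻¹ * MulAut.conj y
      rw [map_inv]
      group), hj]

end

/-- congruence subgroups of small index with large elementary abelian quotients -/
theorem exists_big {p : ℕ} (hp : 2 ≤ p) (n k : ℕ) (hk : 1 ≤ k) :
    ∃ H : Subgroup (MulAut (Surf (n + 3))), (∀ x, MulAut.conj x ∈ H) ∧ H.index ≠ 0 ∧
      H.index ≤ p ^ ((12 * (n + 3) ^ 2 + 6 * (n + 3)) * k) ∧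
      ∃ f : H →* Multiplicative (Fin k × Fin k → ZMod p), Function.Surjective f ∧
        (∀ h : H, (∃ x : Surf (n + 3), h.1 = MulAut.conj x) → f h = 1) ∧
        IsCong (Surf (n + 3)) (f.ker.map H.subtype) := by
  haveI : NeZero p := ⟨by omega⟩
  obtain ⟨Γ0, J, L, h1, h2, h3, h4, h5, h6, h7⟩ := graph_data (p := p) n k
  let π : Multiplicative ((Fin k → ZMod p) × (Fin k × Fin k → ZMod p)) →*
      Multiplicative (Fin k × Fin k → ZMod p) := AddMonoidHom.toMultiplicative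
        (AddMonoidHom.snd _ _)
  have hπ : Function.Surjective π := fun z =>
    ⟨Multiplicative.ofAdd (0, Multiplicative.toAdd z), rfl⟩
  refine big_of Γ0 _ h1 (h2.trans ?_) (π.comp J) (hπ.comp h3) ?_ L h5 h6 ?_
  · have h8 := index_bound hp (n + 3) k hk
    have h9 : p ^ ((12 * (n + 3) ^ 2 + 6 * (n + 3) + 1) * k) =
        p ^ ((12 * (n + 3) ^ 2 + 6 * (n + 3)) * k) * p ^ k := by
      rw [← pow_add]
      congr 1
      ring
    rw [h9] at h8
    exact Nat.le_of_mul_le_mul_right h8 (by positivity)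
  · intro y h
    rw [MonoidHom.comp_apply, h4, map_one]
  · intro ψ hψ
    obtain ⟨h, hj⟩ := h7 ψ hψ
    exact ⟨h, by rw [MonoidHom.comp_apply, hj, map_one]⟩

theorem cong_many' {p : ℕ} (hp : 2 ≤ p) (n k : ℕ) (hk : 1 ≤ k) :
    ((p ^ (k * (k * k)) : ℕ) : ℕ∞) ≤ cong (Surf (n + 3))
      (p ^ ((12 * (n + 3) ^ 2 + 6 * (n + 3) + 1) * k)) := by
  haveI : NeZero p := ⟨by omega⟩
  exact (cong_many n k).trans (cnt_mono _ _ (index_bound hp (n + 3) k hk))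

end Pool.Agent.Helper19.GR
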