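import Mathlib

/-!
# A group of class two with a shift
-/

set_option autoImplicit false
set_option linter.style.haveILetI false

namespace Pool.Agent.Helper19.GR

/-- triples: a vector, a matrix, and a shift -/
@[ext] structure W (m p : ℕ) where
  /-- the vector -/
  v : ZMod m → ZMod p
  /-- the matrix -/
  c : ZMod m → ZMod m → ZMod p
  /-- the shift -/
  s : ZMod m

namespace W

variable {m p : ℕ}

instance : Mul (W m p) := ⟨fun x y =>
  ⟨fun k => x.v k + y.v (k - x.s),
   fun k l => x.c k l + y.c (k - x.s) (l - x.s) + x.v k * y.v (l - x.s),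
   x.s + y.s⟩⟩

instance : One (W m p) := ⟨⟨0, 0, 0⟩⟩

instance : Inv (W m p) := ⟨fun x =>
  ⟨fun k => - x.v (k + x.s),
   fun k l => - x.c (k + x.s) (l + x.s) + x.v (k + x.s) * x.v (l + x.s),
   - x.s⟩⟩

@[simp] lemma mul_v (x y : W m p) (k : ZMod m) : (x * y).v k = x.v k + y.v (k - x.s) := rfl
@[simp] lemma mul_c (x y : W m p) (k l : ZMod m) :
    (x * y).c k l = x.c k l + y.c (k - x.s) (l - x.s) + x.v k * y.v (l - x.s) := rfl
@[simp] lemma mul_s (x y : W m p) : (x * y).s = x.s + y.s := rfl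
@[simp] lemma one_v (k : ZMod m) : (1 : W m p).v k = 0 := rfl
@[simp] lemma one_c (k l : ZMod m) : (1 : W m p).c k l = 0 := rfl
@[simp] lemma one_s : (1 : W m p).s = 0 := rfl
@[simp] lemma inv_v (x : W m p) (k : ZMod m) : (x⁻¹).v k = - x.v (k + x.s) := rfl
@[simp] lemma inv_c (x : W m p) (k l : ZMod m) :
    (x⁻¹).c k l = - x.c (k + x.s) (l + x.s) + x.v (k + x.s) * x.v (l + x.s) := rfl
@[simp] lemma inv_s (x : W m p) : (x⁻¹).s = - x.s := rfl

instance : Group (W m p) := Group.ofLeftAxioms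
  (by
    intro x y z
    ext k
    · simp only [mul_v, mul_s, sub_sub]
      ring
    · rename_i l
      simp only [mul_c, mul_v, mul_s, sub_sub]
      ring
    · simp only [mul_s]
      ring)
  (by
    intro x
    ext k
    · simp
    · simp
    · simp)
  (by
    intro x
    ext k
    · simp
    · simp
    · simp)

/-- the shift is a homomorphism -/
def sh (m p : ℕ) : W m p →* Multiplicative (ZMod m) where
  toFun x := Multiplicative.ofAdd x.s
  map_one' := rfl
  map_mul' _ _ := rfl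

lemma comm_of {z x : W m p} (hv : ∀ k, z.v k = 0) (hs : z.s = 0) (hx : x.s = 0) :
    z * x = x * z := by
  ext k
  · simp [hv, hs, hx]
  · simp [hv, hs, hx, add_comm]
  · simp [hs, hx]

/-- the central part -/
def Z (m p : ℕ) : Subgroup (W m p) where
  carrier := {z | (∀ k, z.v k = 0) ∧ z.s = 0}
  one_mem' := ⟨fun _ => rfl, rfl⟩
  mul_mem' := by
    rintro a b ⟨h1, h2⟩ ⟨h3, h4⟩
    exact ⟨fun k => by simp [h1, h3], by simp [h2, h4]⟩
  inv_mem' := by
    rintro a ⟨h1, h2⟩
    exact ⟨fun k => by simp [h1], by simp [h2]⟩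

lemma mem_Z {z : W m p} : z ∈ Z m p ↔ (∀ k, z.v k = 0) ∧ z.s = 0 := Iff.rfl

lemma Z_pow {z : W m p} (hz : z ∈ Z m p) : z ^ p = 1 := by
  have h : ∀ n : ℕ, (z ^ n).s = 0 ∧ (∀ k, (z ^ n).v k = 0) ∧
      ∀ k l, (z ^ n).c k l = (n : ZMod p) * z.c k l := by
    intro n
    induction n with
    | zero => exact ⟨rfl, fun _ => rfl, fun k l => by simp⟩
    | succ n ih =>
      obtain ⟨h1, h2, h3⟩ := ih
      refine ⟨by rw [pow_succ]; simp [h1, hz.2], fun k => ?_, fun k l => ?_⟩
      · rw [pow_succ]; simp [h2, hz.1]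
      · rw [pow_succ]
        simp only [mul_c, h1, h2, h3, hz.1, sub_zero]
        push_cast
        ring
  obtain ⟨h1, h2, h3⟩ := h p
  ext k
  · simp [h2]
  · simp [h3]
  · simp [h1]

lemma mul_c_Z {z z' : W m p} (hz : z ∈ Z m p) (k l : ZMod m) :
    (z * z').c k l = z.c k l + z'.c k l := by
  simp [hz.1, hz.2]

lemma pow_mem_Z {x : W m p} (hx : x.s = 0) : x ^ p ∈ Z m p := by
  have h : ∀ n : ℕ, (x ^ n).s = 0 ∧ ∀ k, (x ^ n).v k = (n : ZMod p) * x.v k := by
    intro n
    induction n with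
    | zero => exact ⟨rfl, fun k => by simp⟩
    | succ n ih =>
      obtain ⟨h1, h2⟩ := ih
      refine ⟨by rw [pow_succ]; simp [h1, hx], fun k => ?_⟩
      rw [pow_succ]
      simp only [mul_v, h1, h2, sub_zero]
      push_cast
      ring
  obtain ⟨h1, h2⟩ := h p
  exact ⟨fun k => by simp [h2], h1⟩

lemma comm_mem_Z {x y : W m p} (hx : x.s = 0) (hy : y.s = 0) :
    x * y * x⁻¹ * y⁻¹ ∈ Z m p := by
  refine ⟨fun k => ?_, ?_⟩
  · simp only [mul_v, mul_s, inv_v, inv_s, hx, hy, sub_zero, add_zero, neg_zero]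
    ring
  · simp [hx, hy]

/-- the shift element -/
def tau (m p : ℕ) : W m p := ⟨0, 0, 1⟩

/-- the basis vector -/
def e (m p : ℕ) (i : ZMod m) : W m p := ⟨Pi.single i 1, 0, 0⟩

lemma tau_pow (n : ℕ) : tau m p ^ n = ⟨0, 0, n⟩ := by
  induction n with
  | zero =>
    rw [pow_zero]
    ext k <;> simp
  | succ n ih =>
    rw [pow_succ, ih]
    ext k
    · simp [tau]
    · simp [tau]
    · simp [tau]

lemma tau_e (n : ℕ) : tau m p ^ n * e m p 0 * (tau m p ^ n)⁻¹ = e m p n := by
  rw [tau_pow]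
  ext k
  · simp only [mul_v, mul_s, inv_v, e, Pi.zero_apply, zero_add, add_zero, neg_zero]
    rw [Pi.single_apply, Pi.single_apply]
    simp [sub_eq_zero]
  · simp [e]
  · simp [e]

lemma comm_e (i j : ZMod m) (k l : ZMod m) :
    ((e m p j)⁻¹ * (e m p i)⁻¹ * e m p j * e m p i).c k l =
      (Pi.single j (1 : ZMod p) : ZMod m → ZMod p) k * (Pi.single i (1 : ZMod p) : ZMod m → ZMod p) l -
      (Pi.single i (1 : ZMod p) : ZMod m → ZMod p) k *
        (Pi.single j (1 : ZMod p) : ZMod m → ZMod p) l := by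
  simp only [mul_c, mul_v, mul_s, inv_c, inv_v, inv_s, e, Pi.zero_apply, sub_zero, add_zero,
    neg_zero]
  ring

instance [NeZero m] [NeZero p] : Finite (W m p) := by
  refine Finite.of_injective (fun x : W m p => (x.v, x.c, x.s)) ?_
  intro x y h
  simp only [Prod.mk.injEq] at h
  exact W.ext h.1 h.2.1 h.2.2

end W

end Pool.Agent.Helper19.GR
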