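import Pool.Agent.Helper19.GR.Abs
import Pool.Agent.Helper19.GR.WGrp

/-!
# The class-two quotient of a cyclic cover
-/

set_option autoImplicit false
set_option linter.style.haveILetI false

namespace Pool.Agent.Helper19.GR

open Pool.Agent.Q98.CG

variable {S : Type} [Group S]

section Frattini

variable (p : ℕ) (K : Subgroup S)

/-- the subgroup of `K` generated by the commutators and the `p`-th powers -/
def Phi : Subgroup S :=
  Subgroup.closure ({z | ∃ x ∈ K, z = x ^ p} ∪ {z | ∃ x ∈ K, ∃ y ∈ K, z = x * y * x⁻¹ * y⁻¹})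

variable {p K}

lemma Phi_le : Phi p K ≤ K := by
  unfold Phi
  rw [Subgroup.closure_le]
  rintro z (⟨x, hx, rfl⟩ | ⟨x, hx, y, hy, rfl⟩)
  · exact K.pow_mem hx p
  · exact K.mul_mem (K.mul_mem (K.mul_mem hx hy) (K.inv_mem hx)) (K.inv_mem hy)

lemma pow_mem_Phi {x : S} (hx : x ∈ K) : x ^ p ∈ Phi p K :=
  Subgroup.subset_closure (Or.inl ⟨x, hx, rfl⟩)

lemma comm_mem_Phi {x y : S} (hx : x ∈ K) (hy : y ∈ K) : x * y * x⁻¹ * y⁻¹ ∈ Phi p K :=
  Subgroup.subset_closure (Or.inr ⟨x, hx, y, hy, rfl⟩)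

instance Phi_normal [hK : K.Normal] : (Phi p K).Normal := by
  constructor
  intro n hn g
  have key : Phi p K ≤ (Phi p K).comap (MulAut.conj g).toMonoidHom := by
    conv_lhs => unfold Phi
    rw [Subgroup.closure_le]
    rintro z (⟨x, hx, rfl⟩ | ⟨x, hx, y, hy, rfl⟩)
    · have : (MulAut.conj g).toMonoidHom (x ^ p) = (g * x * g⁻¹) ^ p := by
        rw [map_pow]; rfl
      rw [SetLike.mem_coe, Subgroup.mem_comap, this]
      exact pow_mem_Phi (hK.conj_mem x hx g)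
    · have : (MulAut.conj g).toMonoidHom (x * y * x⁻¹ * y⁻¹) =
          (g * x * g⁻¹) * (g * y * g⁻¹) * (g * x * g⁻¹)⁻¹ * (g * y * g⁻¹)⁻¹ := by
        show g * (x * y * x⁻¹ * y⁻¹) * g⁻¹ = _
        group
      rw [SetLike.mem_coe, Subgroup.mem_comap, this]
      exact comm_mem_Phi (hK.conj_mem x hx g) (hK.conj_mem y hy g)
  exact key hn

lemma card_Phi [Group.FG S] [K.Normal] [K.FiniteIndex] (hp : 0 < p) {r : ℕ}
    (hr : Group.rank S ≤ r) :
    (Phi p K).index ≠ 0 ∧ (Phi p K).index ≤ K.index * p ^ (K.index * r) := by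
  haveI : Group.FG K := K.fg_of_index_ne_zero
  let N' : Subgroup K := (Phi p K).subgroupOf K
  haveI : N'.Normal := inferInstance
  letI : CommGroup (K ⧸ N') :=
    { (inferInstance : Group (K ⧸ N')) with
      mul_comm := by
        intro a b
        obtain ⟨x, rfl⟩ := QuotientGroup.mk_surjective a
        obtain ⟨y, rfl⟩ := QuotientGroup.mk_surjective b
        rw [← QuotientGroup.mk_mul, ← QuotientGroup.mk_mul, eq_comm, QuotientGroup.eq]
        show (((y * x)⁻¹ * (x * y) : K) : S) ∈ Phi p K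
        have h := comm_mem_Phi (p := p) (K.inv_mem x.2) (K.inv_mem y.2)
        have h2 : (((y * x)⁻¹ * (x * y) : K) : S) = (x : S)⁻¹ * (y : S)⁻¹ * ((x : S)⁻¹)⁻¹ * ((y : S)⁻¹)⁻¹ := by
          push_cast
          group
        rw [h2]
        exact h }
  have hexp : ∀ g : K ⧸ N', g ^ p = 1 := by
    intro a
    obtain ⟨x, rfl⟩ := QuotientGroup.mk_surjective a
    rw [← QuotientGroup.mk_pow, QuotientGroup.eq_one_iff]
    show ((x ^ p : K) : S) ∈ Phi p K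
    exact pow_mem_Phi x.2
  haveI : Group.FG (K ⧸ N') := QuotientGroup.fg N'
  have h1 := card_dvd_exponent_pow_rank' (K ⧸ N') hexp
  have h2 : Group.rank (K ⧸ N') ≤ Group.rank K :=
    Group.rank_le_of_surjective (QuotientGroup.mk' N') (QuotientGroup.mk'_surjective N')
  have h3 : Group.rank K ≤ K.index * Group.rank S := K.rank_le_index_mul_rank
  have h4 : N'.index ∣ p ^ Group.rank (K ⧸ N') := h1
  have h5 : N'.index ≤ p ^ (K.index * r) :=
    (Nat.le_of_dvd (pow_pos hp _) h4).trans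
      (Nat.pow_le_pow_right hp (h2.trans (h3.trans (Nat.mul_le_mul_left _ hr))))
  have h6 : N'.index ≠ 0 := by
    intro h
    rw [h, zero_dvd_iff] at h4
    exact (pow_pos hp _).ne' h4
  have h7 : N'.index * K.index = (Phi p K).index := Subgroup.relIndex_mul_index Phi_le
  rw [← h7]
  refine ⟨Nat.mul_ne_zero h6 Subgroup.FiniteIndex.index_ne_zero, ?_⟩
  rw [mul_comm]
  exact Nat.mul_le_mul_left _ h5

end Frattini

section Main

variable {m p : ℕ} (Ψ : S →* W m p)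

/-- the kernel of the shift -/
def KK : Subgroup S := ((W.sh m p).comp Ψ).ker

instance : (KK Ψ).Normal := by unfold KK; infer_instance

lemma mem_KK {x : S} : x ∈ KK Ψ ↔ (Ψ x).s = 0 := by
  unfold KK
  rw [MonoidHom.mem_ker]
  show Multiplicative.ofAdd (Ψ x).s = 1 ↔ _
  rfl

lemma Phi_Z {x : S} (hx : x ∈ Phi p (KK Ψ)) : Ψ x ∈ W.Z m p := by
  have key : Phi p (KK Ψ) ≤ (W.Z m p).comap Ψ := by
    unfold Phi
    rw [Subgroup.closure_le]
    rintro z (⟨x, hx, rfl⟩ | ⟨x, hx, y, hy, rfl⟩)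
    · rw [mem_KK] at hx
      rw [SetLike.mem_coe, Subgroup.mem_comap, map_pow]
      exact W.pow_mem_Z hx
    · rw [mem_KK] at hx hy
      rw [SetLike.mem_coe, Subgroup.mem_comap, map_mul, map_mul, map_mul, map_inv, map_inv]
      exact W.comm_mem_Z hx hy
  exact key hx

/-- the automorphisms acting trivially on `S / Φ(K)` -/
def G0 : Subgroup (MulAut S) := Fx (QuotientGroup.mk' (Phi p (KK Ψ)))

lemma mem_G0 {f : MulAut S} : f ∈ G0 Ψ ↔ ∀ x, f x * x⁻¹ ∈ Phi p (KK Ψ) := by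
  constructor
  · intro h x
    have h1 := h x⁻¹
    rw [QuotientGroup.mk'_apply, QuotientGroup.mk'_apply, QuotientGroup.eq] at h1
    rw [map_inv, inv_inv] at h1
    exact h1
  · intro h x
    have h1 := h x⁻¹
    rw [QuotientGroup.mk'_apply, QuotientGroup.mk'_apply, QuotientGroup.eq]
    rw [map_inv, inv_inv] at h1
    exact h1

/-- automorphisms in `G0` do not change `Ψ` on `Φ(K)` -/
lemma G0_Phi {f : MulAut S} (hf : f ∈ G0 Ψ) {x : S} (hx : x ∈ Phi p (KK Ψ)) :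
    Ψ (f x) = Ψ x := by
  rw [mem_G0] at hf
  have hz : ∀ x, Ψ (f x) = Ψ (f x * x⁻¹) * Ψ x := by
    intro x
    rw [← map_mul, inv_mul_cancel_right]
  have hcz : ∀ (x y : S), x ∈ KK Ψ → Ψ (f y * y⁻¹) * Ψ x = Ψ x * Ψ (f y * y⁻¹) := by
    intro x y hx
    have h := Phi_Z Ψ (hf y)
    exact W.comm_of h.1 h.2 ((mem_KK Ψ).1 hx)
  have hcz' : ∀ (x y : S), Ψ (f y * y⁻¹) * Ψ (f x * x⁻¹) = Ψ (f x * x⁻¹) * Ψ (f y * y⁻¹) := by
    intro x y
    have h := Phi_Z Ψ (hf y)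
    exact W.comm_of h.1 h.2 (Phi_Z Ψ (hf x)).2
  have key : Phi p (KK Ψ) ≤ (Ψ.comp f.toMonoidHom).eqLocus Ψ := by
    conv_lhs => unfold Phi
    rw [Subgroup.closure_le]
    rintro z (⟨x, hx, rfl⟩ | ⟨x, hx, y, hy, rfl⟩)
    · show Ψ (f (x ^ p)) = Ψ (x ^ p)
      rw [map_pow, map_pow, map_pow, hz x]
      have hc : Commute (Ψ (f x * x⁻¹)) (Ψ x) := hcz x x hx
      rw [hc.mul_pow, W.Z_pow (Phi_Z Ψ (hf x)), one_mul]
    · show Ψ (f (x * y * x⁻¹ * y⁻¹)) = Ψ (x * y * x⁻¹ * y⁻¹)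
      have h1 : Ψ (f (x * y * x⁻¹ * y⁻¹)) = Ψ (f x) * Ψ (f y) * (Ψ (f x))⁻¹ * (Ψ (f y))⁻¹ := by
        simp only [map_mul, map_inv]
      have h1' : Ψ (x * y * x⁻¹ * y⁻¹) = Ψ x * Ψ y * (Ψ x)⁻¹ * (Ψ y)⁻¹ := by
        simp only [map_mul, map_inv]
      rw [h1, hz x, hz y, h1']
      set u := Ψ (f x * x⁻¹)
      set w := Ψ (f y * y⁻¹)
      have a1 : Commute u (Ψ x) := hcz x x hx
      have a2 : Commute u (Ψ y) := hcz y x hy
      have a3 : Commute w (Ψ x) := hcz x y hx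
      have a4 : Commute w (Ψ y) := hcz y y hy
      have a5 : Commute u w := hcz' y x
      have h2 : u * Ψ x * (w * Ψ y) * (u * Ψ x)⁻¹ * (w * Ψ y)⁻¹ = Ψ x * Ψ y * (Ψ x)⁻¹ * (Ψ y)⁻¹ := by
        have e1 : u * Ψ x * (w * Ψ y) = (u * w) * (Ψ x * Ψ y) := by
          rw [mul_assoc u, ← mul_assoc (Ψ x), ← a3.eq, mul_assoc w, ← mul_assoc]
        have e2 : (w * Ψ y) * (u * Ψ x) = (u * w) * (Ψ y * Ψ x) := by
          rw [mul_assoc w, ← mul_assoc (Ψ y), ← a2.eq, mul_assoc u, ← mul_assoc, a5.eq]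
        have e3 : u * Ψ x * (w * Ψ y) * (u * Ψ x)⁻¹ * (w * Ψ y)⁻¹ =
            (u * Ψ x * (w * Ψ y)) * ((w * Ψ y) * (u * Ψ x))⁻¹ := by group
        rw [e3, e1, e2]
        have a6 : Commute (u * w) (Ψ x * Ψ y * (Ψ x)⁻¹ * (Ψ y)⁻¹) := by
          have b1 : Commute (u * w) (Ψ x) := a1.mul_left a3
          have b2 : Commute (u * w) (Ψ y) := a2.mul_left a4
          exact ((b1.mul_right b2).mul_right b1.inv_right).mul_right b2.inv_right
        have e4 : u * w * (Ψ x * Ψ y) * (u * w * (Ψ y * Ψ x))⁻¹ =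
            u * w * (Ψ x * Ψ y * (Ψ x)⁻¹ * (Ψ y)⁻¹) * (u * w)⁻¹ := by group
        rw [e4, a6.eq]
        group
      exact h2
  exact key hx

/-- the entries -/
def entries {α : Type} (b : S) (P : α → ZMod m × ZMod m) (f : MulAut S) : α → ZMod p :=
  fun a => (Ψ (f b * b⁻¹)).c (P a).1 (P a).2

lemma entries_mul {α : Type} (b : S) (P : α → ZMod m × ZMod m) {f g : MulAut S} (hf : f ∈ G0 Ψ)
    (hg : g ∈ G0 Ψ) : entries Ψ b P (f * g) = entries Ψ b P f + entries Ψ b P g := by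
  funext a
  have h1 : (f * g) b * b⁻¹ = f (g b * b⁻¹) * (f b * b⁻¹) := by
    rw [MulAut.mul_apply, map_mul, map_inv]
    group
  have h2 := (mem_G0 Ψ).1 hg b
  show (Ψ ((f * g) b * b⁻¹)).c (P a).1 (P a).2 = _
  rw [h1, map_mul, G0_Phi Ψ hf h2, W.mul_c_Z (Phi_Z Ψ h2), add_comm]
  rfl

end Main

end Pool.Agent.Helper19.GR
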