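import Pool.Agent.Helper19.GR.Main

/-!
# Growth of congruence and noncongruence subgroups
-/

set_option autoImplicit false
set_option linter.style.haveILetI false

namespace Pool.Agent.Helper19.GR

open Pool.Agent.Q98.CG

variable {G : Type} [Group G]

lemma cong_quad {D : ℕ} (hD : 0 < D)
    (hc : ∀ k : ℕ, 1 ≤ k → ((2 ^ (k * (k * k)) : ℕ) : ℕ∞) ≤ cong G (2 ^ (D * k))) (x : ℕ)
    (hx : 2 ^ D ≤ x) :
    ((x ^ ((Nat.log 2 x) ^ 2 / (16 * D ^ 3)) : ℕ) : ℕ∞) ≤ cong G x := by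
  set L := Nat.log 2 x with hL
  have hx0 : x ≠ 0 := by
    have : 0 < 2 ^ D := by positivity
    omega
  have hDL : D ≤ L := Nat.le_log_of_pow_le (by norm_num) hx
  have hx1 : 2 ^ L ≤ x := Nat.pow_log_le_self _ hx0
  have hx2 : x < 2 ^ (L + 1) := Nat.lt_pow_succ_log_self (by norm_num) x
  set k := L / D with hk
  have hk1 : 1 ≤ k := (Nat.one_le_div_iff hD).2 hDL
  have hk2 : D * k ≤ L := Nat.mul_div_le L D
  have hk3 : L < D * (k + 1) := Nat.lt_mul_div_succ L hD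
  have hk4 : L ≤ 2 * (D * k) := by nlinarith
  set e := L ^ 2 / (16 * D ^ 3) with he
  have he1 : (16 * D ^ 3) * e ≤ L ^ 2 := Nat.mul_div_le _ _
  have h1 : (L + 1) * e ≤ k * (k * k) := by
    have hL1 : 1 ≤ L := by omega
    have a1 : (16 * D ^ 3) * ((L + 1) * e) ≤ 2 * L ^ 3 := by
      calc (16 * D ^ 3) * ((L + 1) * e) = (L + 1) * ((16 * D ^ 3) * e) := by ring
        _ ≤ (2 * L) * L ^ 2 := Nat.mul_le_mul (by omega) he1
        _ = 2 * L ^ 3 := by ring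
    have a2 : 2 * L ^ 3 ≤ (16 * D ^ 3) * (k * (k * k)) := by
      calc 2 * L ^ 3 ≤ 2 * (2 * (D * k)) ^ 3 := Nat.mul_le_mul_left _ (Nat.pow_le_pow_left hk4 _)
        _ = (16 * D ^ 3) * (k * (k * k)) := by ring
    exact Nat.le_of_mul_le_mul_left (a1.trans a2) (by positivity)
  have h2 : x ^ e ≤ 2 ^ (k * (k * k)) := by
    calc x ^ e ≤ (2 ^ (L + 1)) ^ e := Nat.pow_le_pow_left hx2.le _
      _ = 2 ^ ((L + 1) * e) := by rw [← pow_mul]
      _ ≤ 2 ^ (k * (k * k)) := Nat.pow_le_pow_right (by norm_num) h1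
  have h3 : 2 ^ (D * k) ≤ x := (Nat.pow_le_pow_right (by norm_num) hk2).trans hx1
  calc ((x ^ e : ℕ) : ℕ∞) ≤ ((2 ^ (k * (k * k)) : ℕ) : ℕ∞) := by exact_mod_cast h2
    _ ≤ cong G (2 ^ (D * k)) := hc k hk1
    _ ≤ cong G x := cnt_mono _ _ h3

lemma noncong_quad {C : ℕ} (hC : 0 < C)
    (hc : ∃ x₀ : ℕ, ∀ x : ℕ, x₀ ≤ x → ((x ^ ((Nat.log 2 x) ^ 2 / C) : ℕ) : ℕ∞) ≤ cong G x)
    {N : Subgroup (MulAut G)} (hI : ∀ g : G, MulAut.conj g ∈ N) (hN : N.index ≠ 0)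
    (hNP : ¬ IsCong G N) :
    ∃ x₀ : ℕ, ∀ x : ℕ, x₀ ≤ x →
      ((x ^ ((Nat.log 2 x) ^ 2 / (36 * C)) : ℕ) : ℕ∞) ≤ noncong G x := by
  set d := N.index with hd
  set r := Nat.log 2 d with hr
  obtain ⟨x₁, h1⟩ := hc
  set M := 2 * C * (2 * r + 1) with hM
  obtain ⟨T, hT⟩ : ∃ T, T = 2 ^ M := ⟨_, rfl⟩
  refine ⟨d * (x₁ + T + d + 2), fun y hy => ?_⟩
  set x := y / d with hx
  have hdpos : 0 < d := Nat.pos_of_ne_zero hN
  have hx1 : x₁ + T + d + 2 ≤ x := by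
    rw [hx, Nat.le_div_iff_mul_le hdpos, mul_comm]
    exact hy
  have hx2 : d * x ≤ y := Nat.mul_div_le y d
  have hx3 : y < d * (x + 1) := Nat.lt_mul_div_succ y hdpos
  have hx4 : y ≤ x ^ 2 := by
    have : d * (x + 1) ≤ x ^ 2 := by
      have h2 : d ≤ x - 2 := by omega
      have h3 : d * (x + 1) ≤ (x - 2) * (x + 1) := Nat.mul_le_mul_right _ h2
      refine h3.trans ?_
      obtain ⟨z, hz⟩ : ∃ z, x = z + 2 := ⟨x - 2, by omega⟩
      rw [hz]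
      have : z + 2 - 2 = z := by omega
      rw [this]
      nlinarith
    omega
  set Lx := Nat.log 2 x with hLx
  set Ly := Nat.log 2 y with hLy
  have hx0 : x ≠ 0 := by omega
  have hy0 : y ≠ 0 := by
    intro h
    have : d * x = 0 := by omega
    rcases Nat.mul_eq_zero.1 this with h | h <;> omega
  have hLM : M ≤ Lx := Nat.le_log_of_pow_le (by norm_num) (by rw [← hT]; omega)
  have hM1 : 1 ≤ M := by
    rw [hM]
    have : 0 < 2 * C * (2 * r + 1) := by positivity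
    omega
  have hLL : Ly ≤ 3 * Lx := by
    have a1 : 2 ^ Ly ≤ y := Nat.pow_log_le_self _ hy0
    have a2 : x < 2 ^ (Lx + 1) := Nat.lt_pow_succ_log_self (by norm_num) x
    have a3 : 2 ^ Ly < 2 ^ ((Lx + 1) * 2) := by
      calc 2 ^ Ly ≤ y := a1
        _ ≤ x ^ 2 := hx4
        _ < (2 ^ (Lx + 1)) ^ 2 := Nat.pow_lt_pow_left a2 (by norm_num)
        _ = 2 ^ ((Lx + 1) * 2) := by rw [← pow_mul]
    have a4 := (Nat.pow_lt_pow_iff_right (by norm_num : 1 < 2)).1 a3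
    omega
  set e := Lx ^ 2 / C with he
  set e' := Ly ^ 2 / (36 * C) with he'
  have hee : 2 * e' + 2 * r ≤ e := by
    rw [he, Nat.le_div_iff_mul_le hC]
    have b1 : (36 * C) * e' ≤ Ly ^ 2 := Nat.mul_div_le _ _
    have b2 : Ly ^ 2 ≤ 9 * Lx ^ 2 := by
      calc Ly ^ 2 ≤ (3 * Lx) ^ 2 := Nat.pow_le_pow_left hLL _
        _ = 9 * Lx ^ 2 := by ring
    have b3 : M * 1 ≤ Lx ^ 2 := by
      rw [pow_two]
      exact Nat.mul_le_mul hLM (by omega)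
    have b4 : 4 * C * r ≤ Lx ^ 2 := by
      have : M = 4 * C * r + 2 * C := by rw [hM]; ring
      omega
    nlinarith
  have h2 := h1 x (by omega)
  have h3 := many_aut hI hN hNP x
  rw [← hd, ← hr] at h3
  have h4 : noncong G (d * x) ≤ noncong G y := cnt_mono _ _ hx2
  have h5 : (d * x) ^ r ≤ x ^ (2 * r) := by
    rw [pow_mul]
    exact Nat.pow_le_pow_left (hx2.trans hx4) _
  have h6 : y ^ e' ≤ x ^ (2 * e') := by
    rw [pow_mul]
    exact Nat.pow_le_pow_left hx4 _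
  have h6' : x ^ (2 * e' + 2 * r) ≤ x ^ e := Nat.pow_le_pow_right (by omega) hee
  have h7 : ((x ^ (2 * e' + 2 * r) : ℕ) : ℕ∞) ≤ noncong G y * ((x ^ (2 * r) : ℕ) : ℕ∞) := by
    refine (((Nat.cast_le.2 h6').trans h2).trans h3).trans ?_
    exact mul_le_mul' h4 (by exact_mod_cast h5)
  by_contra hcon
  rw [not_le] at hcon
  obtain ⟨k, hk⟩ := ENat.ne_top_iff_exists.1 (ne_top_of_lt hcon)
  rw [← hk] at hcon h7
  have h8 : k < y ^ e' := by exact_mod_cast hcon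
  have h9 : x ^ (2 * e' + 2 * r) ≤ k * x ^ (2 * r) := by exact_mod_cast h7
  rw [pow_add] at h9
  have hxp : 0 < x ^ (2 * r) := by
    have : 0 < x := by omega
    positivity
  have h10 := Nat.le_of_mul_le_mul_right h9 hxp
  omega

theorem quad {D : ℕ} (hD : 0 < D)
    (hc : ∀ k : ℕ, 1 ≤ k → ((2 ^ (k * (k * k)) : ℕ) : ℕ∞) ≤ cong G (2 ^ (D * k))) :
    ∃ C : ℕ, 0 < C ∧
      (∃ x₀ : ℕ, ∀ x : ℕ, x₀ ≤ x → ((x ^ ((Nat.log 2 x) ^ 2 / C) : ℕ) : ℕ∞) ≤ cong G x) ∧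
      (∀ N : Subgroup (MulAut G), (∀ x, MulAut.conj x ∈ N) → N.index ≠ 0 → ¬ IsCong G N →
        ∃ x₀ : ℕ, ∀ x : ℕ, x₀ ≤ x →
          ((x ^ ((Nat.log 2 x) ^ 2 / C) : ℕ) : ℕ∞) ≤ noncong G x) ∧
      ((∀ H : Subgroup (MulAut G), H.FiniteIndex → (∀ g : G, MulAut.conj g ∈ H) → IsCong G H) ↔
        ∀ x₀ : ℕ, ∃ x : ℕ, x₀ ≤ x ∧
          noncong G x < ((x ^ ((Nat.log 2 x) ^ 2 / C) : ℕ) : ℕ∞)) := by
  have h1 : ∃ x₀ : ℕ, ∀ x : ℕ, x₀ ≤ x →
      ((x ^ ((Nat.log 2 x) ^ 2 / (16 * D ^ 3)) : ℕ) : ℕ∞) ≤ cong G x :=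
    ⟨2 ^ D, fun x hx => cong_quad hD hc x hx⟩
  have hC : 0 < 16 * D ^ 3 := by positivity
  refine ⟨36 * (16 * D ^ 3), by positivity, ?_, ?_, ?_⟩
  · obtain ⟨x₀, h⟩ := h1
    refine ⟨x₀ + 1, fun x hx => le_trans (Nat.cast_le.2 ?_) (h x (by omega))⟩
    refine Nat.pow_le_pow_right (by omega) (Nat.div_le_div_left ?_ hC)
    omega
  · intro N a1 a2 a3
    exact noncong_quad hC h1 a1 a2 a3
  · constructor
    · intro h x₀
      refine ⟨x₀ + 1, by omega, ?_⟩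
      have h2 : noncong G (x₀ + 1) = 0 := by
        rw [noncong, cnt, Set.encard_eq_zero, Set.eq_empty_iff_forall_notMem]
        rintro H ⟨h1, h2, h3, _⟩
        exact h2 (h H ⟨h3⟩ (inn_le.1 h1))
      rw [h2]
      have : 0 < (x₀ + 1) ^ ((Nat.log 2 (x₀ + 1)) ^ 2 / (36 * (16 * D ^ 3))) := by positivity
      exact_mod_cast this
    · rintro hA H h2 h3
      by_contra h4
      obtain ⟨x₀, hx₀⟩ := noncong_quad hC h1 h3 h2.index_ne_zero h4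
      obtain ⟨x, hx, hx2⟩ := hA x₀
      exact absurd (hx₀ x hx) (not_le.2 hx2)

lemma index_bound {p : ℕ} (hp : 2 ≤ p) (g k : ℕ) (hk : 1 ≤ k) :
    ((2 * k + 1) * p ^ ((2 * k + 1) * (2 * g))) ^ (2 * g) * p ^ k ≤
      p ^ ((12 * g ^ 2 + 6 * g + 1) * k) := by
  have h1 : 2 * k + 1 ≤ p ^ (3 * k) :=
    (show 2 * k + 1 ≤ 3 * k by omega).trans (Nat.lt_pow_self (by omega)).le
  have h2 : p ^ ((2 * k + 1) * (2 * g)) ≤ p ^ (3 * k * (2 * g)) :=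
    Nat.pow_le_pow_right (by omega) (Nat.mul_le_mul_right _ (by omega))
  calc ((2 * k + 1) * p ^ ((2 * k + 1) * (2 * g))) ^ (2 * g) * p ^ k
      ≤ (p ^ (3 * k) * p ^ (3 * k * (2 * g))) ^ (2 * g) * p ^ k :=
        Nat.mul_le_mul_right _ (Nat.pow_le_pow_left (Nat.mul_le_mul h1 h2) _)
    _ = p ^ ((12 * g ^ 2 + 6 * g + 1) * k) := by
        rw [← pow_add, ← pow_mul, ← pow_add]
        congr 1
        ring

end Pool.Agent.Helper19.GR
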