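import Pool.Agent.Helper19.GR.SurfAut

/-!
# The commutators of the conjugates of a twist
-/

set_option autoImplicit false
set_option linter.style.haveILetI false

namespace Pool.Agent.Helper19.GR

open Pool.Agent.Q98.CG

variable {n : ℕ} {H : Type} [Group H]

/-- composition with an automorphism -/
def cmp (Θ : Surf (n + 3) →* H) (f : MulAut (Surf (n + 3))) : Surf (n + 3) →* H :=
  Θ.comp f.toMonoidHom

lemma cmp_mul (Θ : Surf (n + 3) →* H) (f g : MulAut (Surf (n + 3))) :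
    cmp Θ (f * g) = cmp (cmp Θ f) g := rfl

lemma cmp_one (Θ : Surf (n + 3) →* H) : cmp Θ 1 = Θ := rfl

lemma cmp_apply (Θ : Surf (n + 3) →* H) (f : MulAut (Surf (n + 3))) (x : Surf (n + 3)) :
    cmp Θ f x = Θ (f x) := rfl

variable {Θ : Surf (n + 3) →* H} {x0 y0 x1 y1 x2 y2 : H} {ra rb : Fin n → H}

lemma Ev.aP (h : Ev Θ x0 y0 x1 y1 x2 y2 ra rb) (hc : Commute x1 y1) :
    Ev (cmp Θ GR.aP) x0 y0 (x2 * x1 * x2⁻¹) (x2 * y1 * x2⁻¹) x2 y2 ra rb :=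
  ev_cast (h.compP0 (com_one hc) (one_mul x2)) rfl rfl rfl rfl (by group) (by group)

lemma Ev.aP' (h : Ev Θ x0 y0 x1 y1 x2 y2 ra rb) (hc : Commute x1 y1) :
    Ev (cmp Θ (GR.aP)⁻¹) x0 y0 (x2⁻¹ * x1 * x2) (x2⁻¹ * y1 * x2) x2 y2 ra rb :=
  ev_cast (h.compP0' (com_one hc) (one_mul x2)) rfl rfl rfl rfl (by group) (by group)

lemma conj_comm {a b c : H} (h : Commute a b) : Commute (c * a * c⁻¹) (c * b * c⁻¹) := by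
  show c * a * c⁻¹ * (c * b * c⁻¹) = c * b * c⁻¹ * (c * a * c⁻¹)
  have e1 : c * a * c⁻¹ * (c * b * c⁻¹) = c * (a * b) * c⁻¹ := by group
  have e2 : c * b * c⁻¹ * (c * a * c⁻¹) = c * (b * a) * c⁻¹ := by group
  rw [e1, e2, h.eq]

lemma conj_comm' {a b c : H} (h : Commute a b) : Commute (c⁻¹ * a * c) (c⁻¹ * b * c) := by
  have := conj_comm (c := c⁻¹) h
  rwa [inv_inv] at this

lemma Ev.aP_pow (h : Ev Θ x0 y0 x1 y1 x2 y2 ra rb) (hc : Commute x1 y1) (j : ℕ) :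
    Ev (cmp Θ (GR.aP ^ j)) x0 y0 (x2 ^ j * x1 * (x2 ^ j)⁻¹) (x2 ^ j * y1 * (x2 ^ j)⁻¹) x2 y2
      ra rb := by
  induction j with
  | zero =>
    rw [pow_zero, cmp_one]
    exact ev_cast h rfl rfl (by simp) (by simp) rfl rfl
  | succ j ih =>
    rw [pow_succ, cmp_mul]
    refine ev_cast (ih.aP (conj_comm hc)) rfl rfl ?_ ?_ rfl rfl
    all_goals (rw [pow_succ' x2]; group)

lemma Ev.aP_pow' (h : Ev Θ x0 y0 x1 y1 x2 y2 ra rb) (hc : Commute x1 y1) (j : ℕ) :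
    Ev (cmp Θ (GR.aP ^ j)⁻¹) x0 y0 ((x2 ^ j)⁻¹ * x1 * x2 ^ j) ((x2 ^ j)⁻¹ * y1 * x2 ^ j) x2 y2
      ra rb := by
  rw [← inv_pow]
  induction j with
  | zero =>
    rw [pow_zero, cmp_one]
    exact ev_cast h rfl rfl (by simp) (by simp) rfl rfl
  | succ j ih =>
    rw [pow_succ, cmp_mul]
    refine ev_cast (ih.aP' (conj_comm' hc)) rfl rfl ?_ ?_ rfl rfl
    all_goals (rw [pow_succ x2]; group)

/-- the conjugates of the twist -/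
def hj (j : ℕ) : MulAut (Surf (n + 3)) := aP ^ j * aH * (aP ^ j)⁻¹

lemma hj_inv (j : ℕ) : (hj j : MulAut (Surf (n + 3)))⁻¹ = aP ^ j * aH⁻¹ * (aP ^ j)⁻¹ := by
  unfold hj
  group

section
variable {g : H} {j : ℕ}

lemma Ev.hj (h : Ev Θ x0 y0 x1 y1 x2 y2 ra rb) (hc : Commute x1 y1) (h0 : Commute y0 x0)
    (h1 : Commute x0 (x2 ^ j * x1 * (x2 ^ j)⁻¹)) (hg : x0⁻¹ * (x2 ^ j * x1 * (x2 ^ j)⁻¹) = g) :
    Ev (cmp Θ (GR.hj j)) x0 (g * y0) x1 (y1 * ((x2 ^ j)⁻¹ * g * x2 ^ j)⁻¹) x2 y2 ra rb := by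
  have e1 := h.aP_pow hc j
  have hγ : y0 * x0⁻¹ * y0⁻¹ * (x2 ^ j * x1 * (x2 ^ j)⁻¹) = g := by
    have : y0 * x0⁻¹ = x0⁻¹ * y0 := (h0.inv_right).eq
    rw [this, mul_inv_cancel_right, hg]
  have e2 := e1.compH hγ
  have hgX : Commute g (x2 ^ j * x1 * (x2 ^ j)⁻¹) := by
    rw [← hg]
    exact (h1.inv_left).mul_left (Commute.refl _)
  have e3 : Ev (cmp (cmp Θ (GR.aP ^ j)) aH) x0 (g * y0) (x2 ^ j * x1 * (x2 ^ j)⁻¹)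
      (x2 ^ j * y1 * (x2 ^ j)⁻¹ * g⁻¹) x2 y2 ra rb :=
    ev_cast e2 rfl rfl (by rw [hgX.eq, mul_inv_cancel_right]) rfl rfl rfl
  have e4 := e3.aP_pow' ((conj_comm hc).mul_right hgX.symm.inv_right) j
  show Ev (cmp Θ (GR.aP ^ j * aH * (GR.aP ^ j)⁻¹)) _ _ _ _ _ _ _ _
  rw [cmp_mul, cmp_mul]
  exact ev_cast e4 rfl rfl (by group) (by group) rfl rfl

lemma Ev.hj' (h : Ev Θ x0 y0 x1 y1 x2 y2 ra rb) (hc : Commute x1 y1) (h0 : Commute y0 x0)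
    (h1 : Commute x0 (x2 ^ j * x1 * (x2 ^ j)⁻¹)) (hg : x0⁻¹ * (x2 ^ j * x1 * (x2 ^ j)⁻¹) = g) :
    Ev (cmp Θ (GR.hj j)⁻¹) x0 (g⁻¹ * y0) x1 (y1 * ((x2 ^ j)⁻¹ * g * x2 ^ j)) x2 y2 ra rb := by
  have e1 := h.aP_pow hc j
  have hγ : y0 * x0⁻¹ * y0⁻¹ * (x2 ^ j * x1 * (x2 ^ j)⁻¹) = g := by
    have : y0 * x0⁻¹ = x0⁻¹ * y0 := (h0.inv_right).eq
    rw [this, mul_inv_cancel_right, hg]
  have e2 := e1.compH' hγ
  have hgX : Commute g (x2 ^ j * x1 * (x2 ^ j)⁻¹) := by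
    rw [← hg]
    exact (h1.inv_left).mul_left (Commute.refl _)
  have e3 : Ev (cmp (cmp Θ (GR.aP ^ j)) aH⁻¹) x0 (g⁻¹ * y0) (x2 ^ j * x1 * (x2 ^ j)⁻¹)
      (x2 ^ j * y1 * (x2 ^ j)⁻¹ * g) x2 y2 ra rb :=
    ev_cast e2 rfl rfl (by rw [mul_assoc, ← hgX.eq, inv_mul_cancel_left]) rfl rfl rfl
  have e4 := e3.aP_pow' ((conj_comm hc).mul_right hgX.symm) j
  rw [hj_inv, cmp_mul, cmp_mul]
  exact ev_cast e4 rfl rfl (by group) (by group) rfl rfl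

end

/-- the commutators -/
def ff (i j : ℕ) : MulAut (Surf (n + 3)) := hj i * hj j * (hj i)⁻¹ * (hj j)⁻¹

/-- trivial action modulo an abelian normal subgroup which contains the curves -/
lemma ff_abelian (V : Subgroup H) (hV : ∀ a ∈ V, ∀ b ∈ V, Commute a b)
    (hn : ∀ a ∈ V, ∀ j : ℕ, x2 ^ j * a * (x2 ^ j)⁻¹ ∈ V ∧ (x2 ^ j)⁻¹ * a * x2 ^ j ∈ V)
    (h : Ev Θ x0 y0 x1 y1 x2 y2 ra rb) (hx0 : x0 ∈ V) (hy0 : y0 ∈ V) (hx1 : x1 ∈ V)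
    (hy1 : y1 ∈ V) (i j : ℕ) : cmp Θ (ff i j) = Θ := by
  set gi := x0⁻¹ * (x2 ^ i * x1 * (x2 ^ i)⁻¹) with hgi
  set gj := x0⁻¹ * (x2 ^ j * x1 * (x2 ^ j)⁻¹) with hgj
  set ki := (x2 ^ i)⁻¹ * gi * x2 ^ i with hki
  set kj := (x2 ^ j)⁻¹ * gj * x2 ^ j with hkj
  have vgi : gi ∈ V := V.mul_mem (V.inv_mem hx0) (hn _ hx1 i).1
  have vgj : gj ∈ V := V.mul_mem (V.inv_mem hx0) (hn _ hx1 j).1
  have vki : ki ∈ V := (hn _ vgi i).2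
  have vkj : kj ∈ V := (hn _ vgj j).2
  have step : ∀ (l : ℕ) {Θ' : Surf (n + 3) →* H} {y0' y1' : H},
      Ev Θ' x0 y0' x1 y1' x2 y2 ra rb → y0' ∈ V → y1' ∈ V → ∀ g : H,
      x0⁻¹ * (x2 ^ l * x1 * (x2 ^ l)⁻¹) = g →
      Ev (cmp Θ' (hj l)) x0 (g * y0') x1 (y1' * ((x2 ^ l)⁻¹ * g * x2 ^ l)⁻¹) x2 y2 ra rb ∧
      Ev (cmp Θ' (hj l)⁻¹) x0 (g⁻¹ * y0') x1 (y1' * ((x2 ^ l)⁻¹ * g * x2 ^ l)) x2 y2 ra rb := by
    intro l Θ' y0' y1' h' m0 m1 g hg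
    exact ⟨h'.hj (hV _ hx1 _ m1) (hV _ m0 _ hx0) (hV _ hx0 _ (hn _ hx1 l).1) hg,
      h'.hj' (hV _ hx1 _ m1) (hV _ m0 _ hx0) (hV _ hx0 _ (hn _ hx1 l).1) hg⟩
  have s1 := (step i h hy0 hy1 gi rfl).1
  have m1 : gi * y0 ∈ V := V.mul_mem vgi hy0
  have m1' : y1 * ki⁻¹ ∈ V := V.mul_mem hy1 (V.inv_mem vki)
  have s2 := (step j s1 m1 m1' gj rfl).1
  have m2 : gj * (gi * y0) ∈ V := V.mul_mem vgj m1
  have m2' : y1 * ki⁻¹ * kj⁻¹ ∈ V := V.mul_mem m1' (V.inv_mem vkj)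
  have s3 := (step i s2 m2 m2' gi rfl).2
  have m3 : gi⁻¹ * (gj * (gi * y0)) ∈ V := V.mul_mem (V.inv_mem vgi) m2
  have m3' : y1 * ki⁻¹ * kj⁻¹ * ki ∈ V := V.mul_mem m2' vki
  have s4 := (step j s3 m3 m3' gj rfl).2
  have s5 : Ev (cmp Θ (ff i j)) x0 y0 x1 y1 x2 y2 ra rb := by
    unfold ff
    rw [cmp_mul, cmp_mul, cmp_mul]
    refine ev_cast s4 rfl ?_ rfl ?_ rfl rfl
    · have c := hV _ vgi _ vgj
      have e1 : gj * (gi * y0) = gi * (gj * y0) := by rw [← mul_assoc, ← c.eq, mul_assoc]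
      rw [e1, inv_mul_cancel_left, inv_mul_cancel_left]
    · have c : kj⁻¹ * ki = ki * kj⁻¹ := ((hV _ vkj _ vki).inv_left).eq
      have e1 : y1 * ki⁻¹ * kj⁻¹ * ki * kj = y1 * ki⁻¹ * (kj⁻¹ * ki) * kj := by group
      rw [e1, c]
      group
  exact s5.ext h

/-- the action on homomorphisms which kill the curves of the first handle -/
lemma ff_value (h : Ev Θ 1 1 x1 1 x2 y2 ra rb) (i j : ℕ) :
    Ev (cmp Θ (ff i j)) 1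
      ((x2 ^ j * x1 * (x2 ^ j)⁻¹)⁻¹ * (x2 ^ i * x1 * (x2 ^ i)⁻¹)⁻¹ * (x2 ^ j * x1 * (x2 ^ j)⁻¹) *
        (x2 ^ i * x1 * (x2 ^ i)⁻¹)) x1 1 x2 y2 ra rb := by
  set gi := x2 ^ i * x1 * (x2 ^ i)⁻¹ with hgi
  set gj := x2 ^ j * x1 * (x2 ^ j)⁻¹ with hgj
  have step : ∀ (l : ℕ) {Θ' : Surf (n + 3) →* H} {y0' y1' : H},
      Ev Θ' 1 y0' x1 y1' x2 y2 ra rb → Commute x1 y1' →
      Ev (cmp Θ' (hj l)) 1 ((x2 ^ l * x1 * (x2 ^ l)⁻¹) * y0') x1 (y1' * x1⁻¹) x2 y2 ra rb ∧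
      Ev (cmp Θ' (hj l)⁻¹) 1 ((x2 ^ l * x1 * (x2 ^ l)⁻¹)⁻¹ * y0') x1 (y1' * x1) x2 y2 ra rb := by
    intro l Θ' y0' y1' h' m1
    refine ⟨ev_cast (h'.hj (j := l) m1 (Commute.one_right _) (Commute.one_left _)
      (g := x2 ^ l * x1 * (x2 ^ l)⁻¹) (by group)) rfl rfl rfl ?_ rfl rfl,
      ev_cast (h'.hj' (j := l) m1 (Commute.one_right _) (Commute.one_left _)
      (g := x2 ^ l * x1 * (x2 ^ l)⁻¹) (by group)) rfl rfl rfl ?_ rfl rfl⟩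
    all_goals group
  have s1 := (step i h (Commute.one_right _)).1
  have c1 : Commute x1 (1 * x1⁻¹) := by
    rw [one_mul]; exact (Commute.refl x1).inv_right
  have s2 := (step j s1 c1).1
  have c2 : Commute x1 (1 * x1⁻¹ * x1⁻¹) := c1.mul_right (Commute.refl x1).inv_right
  have s3 := (step i s2 c2).2
  have c3 : Commute x1 (1 * x1⁻¹ * x1⁻¹ * x1) := c2.mul_right (Commute.refl x1)
  have s4 := (step j s3 c3).2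
  unfold ff
  rw [cmp_mul, cmp_mul, cmp_mul]
  refine ev_cast s4 rfl ?_ rfl ?_ rfl rfl
  · simp only [mul_assoc, mul_one, hgi, hgj]
  · group

end Pool.Agent.Helper19.GR
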