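import Pool.Agent.Helper19.GR.Cover
import Pool.Agent.Helper19.GR.SurfComm

/-!
# Many congruence subgroups of the mapping class groups
-/

set_option autoImplicit false
set_option linter.style.haveILetI false

namespace Pool.Agent.Helper19.GR

open Pool.Agent.Q98.CG

variable (n m p : ℕ)

/-- the homomorphism to the group of class two -/
def Psi : Surf (n + 3) →* W m p :=
  ho 1 1 (W.e m p 0) 1 (W.tau m p) 1 (fun _ => 1) (fun _ => 1) (by
    have c : ∀ x : W m p, com x 1 = 1 := fun x => com_one (Commute.one_right x)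
    have c1 : (List.ofFn (fun _ : Fin n => (1 : W m p))).prod = 1 := by
      rw [List.prod_eq_one]
      intro x hx
      rw [List.mem_ofFn] at hx
      obtain ⟨i, rfl⟩ := hx
      rfl
    simp only [c]
    rw [c1, mul_one, mul_one, mul_one])

lemma Psi_ev : Ev (Psi n m p) 1 1 (W.e m p 0) 1 (W.tau m p) 1 (fun _ => 1) (fun _ => 1) :=
  ho_ev _ _ _ _ _ _ _ _ _

variable {n m p}

lemma mkPhi_comm (Ψ : Surf (n + 3) →* W m p) :
    ∀ a ∈ (KK Ψ).map (QuotientGroup.mk' (Phi p (KK Ψ))),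
    ∀ b ∈ (KK Ψ).map (QuotientGroup.mk' (Phi p (KK Ψ))), Commute a b := by
  rintro _ ⟨x, hx, rfl⟩ _ ⟨y, hy, rfl⟩
  show QuotientGroup.mk' (Phi p (KK Ψ)) x * QuotientGroup.mk' (Phi p (KK Ψ)) y =
    QuotientGroup.mk' (Phi p (KK Ψ)) y * QuotientGroup.mk' (Phi p (KK Ψ)) x
  rw [← map_mul, ← map_mul, QuotientGroup.mk'_apply, QuotientGroup.mk'_apply, QuotientGroup.eq]
  have h := comm_mem_Phi (p := p) ((KK Ψ).inv_mem hy) ((KK Ψ).inv_mem hx)
  have h2 : (x * y)⁻¹ * (y * x) = y⁻¹ * x⁻¹ * y⁻¹⁻¹ * x⁻¹⁻¹ := by group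
  rw [h2]
  exact h

lemma ff_mem_G0 (i j : ℕ) : ff i j ∈ G0 (Psi n m p) := by
  have h := Psi_ev n m p
  set Ψ := Psi n m p with hΨ
  set q := QuotientGroup.mk' (Phi p (KK Ψ)) with hq
  have hev : Ev q (q (ga 0)) (q (gb 0)) (q (ga 1)) (q (gb 1)) (q (ga 2)) (q (gb 2))
      (fun i => q (ga i.succ.succ.succ)) (fun i => q (gb i.succ.succ.succ)) :=
    ⟨rfl, rfl, rfl, rfl, rfl, rfl, fun _ => rfl, fun _ => rfl⟩
  have hn : ((KK Ψ).map q).Normal := Subgroup.Normal.map inferInstance q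
    (QuotientGroup.mk'_surjective _)
  have key := ff_abelian ((KK Ψ).map q) (mkPhi_comm Ψ)
    (fun a ha j => ⟨hn.conj_mem a ha _, by
      have := hn.conj_mem a ha ((q (ga 2)) ^ j)⁻¹
      rwa [inv_inv] at this⟩) hev
    ⟨ga 0, (mem_KK Ψ).2 (by rw [h.a0]; rfl), rfl⟩ ⟨gb 0, (mem_KK Ψ).2 (by rw [h.b0]; rfl), rfl⟩
    ⟨ga 1, (mem_KK Ψ).2 (by rw [h.a1]; rfl), rfl⟩ ⟨gb 1, (mem_KK Ψ).2 (by rw [h.b1]; rfl), rfl⟩
    i j
  intro x
  exact DFunLike.congr_fun key x

lemma ff_psi (i j : ℕ) : Psi n m p (ff i j (gb 0) * (gb 0)⁻¹) =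
    (W.e m p j)⁻¹ * (W.e m p i)⁻¹ * W.e m p j * W.e m p i := by
  have h := (ff_value (Psi_ev n m p) i j).b0
  rw [cmp_apply] at h
  rw [map_mul, map_inv, h, (Psi_ev n m p).b0, W.tau_e, W.tau_e, inv_one, mul_one]

/-- the entries of the vector part -/
def PV (k m : ℕ) (a : Fin k) : ZMod m × ZMod m := (((2 * k : ℕ) : ZMod m), ((k + a : ℕ) : ZMod m))
/-- the entries of the matrix part -/
def PK (k m : ℕ) (a : Fin k × Fin k) : ZMod m × ZMod m :=
  (((k + a.2 : ℕ) : ZMod m), ((a.1 : ℕ) : ZMod m))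

/-- all entries -/
def Jm (k : ℕ) (Ψ : Surf (n + 3) →* W m p) :
    G0 Ψ →* Multiplicative ((Fin k → ZMod p) × (Fin k × Fin k → ZMod p)) where
  toFun f := Multiplicative.ofAdd
    (entries Ψ (gb 0) (PV k m) f.1, entries Ψ (gb 0) (PK k m) f.1)
  map_one' := by
    have : ∀ {α : Type} (P : α → ZMod m × ZMod m), entries Ψ (gb 0) P 1 = 0 := by
      intro α P
      funext a
      unfold entries
      rw [MulAut.one_apply, mul_inv_cancel, map_one]
      rfl
    show Multiplicative.ofAdd (entries Ψ (gb 0) (PV k m) 1, entries Ψ (gb 0) (PK k m) 1) = 1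
    rw [this, this]
    rfl
  map_mul' f g := by
    show Multiplicative.ofAdd (entries Ψ (gb 0) (PV k m) (f.1 * g.1),
      entries Ψ (gb 0) (PK k m) (f.1 * g.1)) = _
    rw [entries_mul Ψ (gb 0) _ f.2 g.2, entries_mul Ψ (gb 0) _ f.2 g.2]
    rfl

lemma natCast_inj_lt {m a b : ℕ} (ha : a < m) (hb : b < m) (h : (a : ZMod m) = (b : ZMod m)) :
    a = b := by
  rw [ZMod.natCast_eq_natCast_iff] at h
  exact Nat.ModEq.eq_of_lt_of_lt h ha hb

lemma entry_ff {k : ℕ} (i j i' j' : ℕ) (hi : i < j) (hj : j < 2 * k + 1) (hi' : i' < j')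
    (hj' : j' < 2 * k + 1) :
    (Psi n (2 * k + 1) p (ff i j (gb 0) * (gb 0)⁻¹)).c (j' : ZMod (2 * k + 1)) i' =
      if i' = i ∧ j' = j then 1 else 0 := by
  rw [ff_psi, W.comm_e]
  simp only [Pi.single_apply]
  have e : ∀ a b : ℕ, a < 2 * k + 1 → b < 2 * k + 1 →
      (((a : ZMod (2 * k + 1)) = (b : ZMod (2 * k + 1))) ↔ a = b) := fun a b ha hb =>
    ⟨natCast_inj_lt ha hb, fun h => by rw [h]⟩
  simp only [e j' j hj' hj, e i' i (by omega) (by omega), e j' i hj' (by omega),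
    e i' j (by omega) hj]
  by_cases h1 : j' = j
  · by_cases h2 : i' = i
    · have h3 : ¬ j' = i := by omega
      simp [h1, h2, show ¬ j = i by omega]
    · simp [h1, h2, show ¬ j = i by omega]
  · by_cases h3 : j' = i
    · have h4 : ¬ i' = j := by omega
      simp [h1, h4]
    · simp [h1, h3]

lemma Jm_surj [NeZero p] (k : ℕ) : Function.Surjective (Jm k (Psi n (2 * k + 1) p)) := by
  classical
  have hV : ∀ a : Fin k, Multiplicative.ofAdd
      ((Pi.single a 1, 0) : (Fin k → ZMod p) × (Fin k × Fin k → ZMod p)) ∈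
      (Jm k (Psi n (2 * k + 1) p)).range := by
    intro a
    refine ⟨⟨ff (k + a) (2 * k), ff_mem_G0 _ _⟩, ?_⟩
    refine congrArg Multiplicative.ofAdd (Prod.ext ?_ ?_)
    · funext b
      show (Psi n (2 * k + 1) p (ff (k + a) (2 * k) (gb 0) * (gb 0)⁻¹)).c
        ((2 * k : ℕ) : ZMod (2 * k + 1)) ((k + b : ℕ) : ZMod (2 * k + 1)) =
        (Pi.single a 1 : Fin k → ZMod p) b
      rw [entry_ff _ _ _ _ (by omega) (by omega) (by omega) (by omega), Pi.single_apply]
      refine if_congr ?_ rfl rfl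
      rw [Fin.ext_iff]
      omega
    · funext b
      show (Psi n (2 * k + 1) p (ff (k + a) (2 * k) (gb 0) * (gb 0)⁻¹)).c
        ((k + b.2 : ℕ) : ZMod (2 * k + 1)) ((b.1 : ℕ) : ZMod (2 * k + 1)) = _
      rw [entry_ff _ _ _ _ (by omega) (by omega) (by omega) (by omega), if_neg (by omega)]
      rfl
  have hK : ∀ a : Fin k × Fin k, Multiplicative.ofAdd
      ((0, Pi.single a 1) : (Fin k → ZMod p) × (Fin k × Fin k → ZMod p)) ∈
      (Jm k (Psi n (2 * k + 1) p)).range := by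
    intro a
    refine ⟨⟨ff a.1 (k + a.2), ff_mem_G0 _ _⟩, ?_⟩
    refine congrArg Multiplicative.ofAdd (Prod.ext ?_ ?_)
    · funext b
      show (Psi n (2 * k + 1) p (ff a.1 (k + a.2) (gb 0) * (gb 0)⁻¹)).c
        ((2 * k : ℕ) : ZMod (2 * k + 1)) ((k + b : ℕ) : ZMod (2 * k + 1)) = _
      rw [entry_ff _ _ _ _ (by omega) (by omega) (by omega) (by omega), if_neg (by omega)]
      rfl
    · funext b
      show (Psi n (2 * k + 1) p (ff a.1 (k + a.2) (gb 0) * (gb 0)⁻¹)).c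
        ((k + b.2 : ℕ) : ZMod (2 * k + 1)) ((b.1 : ℕ) : ZMod (2 * k + 1)) =
        (Pi.single a 1 : Fin k × Fin k → ZMod p) b
      rw [entry_ff _ _ _ _ (by omega) (by omega) (by omega) (by omega), Pi.single_apply]
      refine if_congr ?_ rfl rfl
      rw [Prod.ext_iff, Fin.ext_iff, Fin.ext_iff]
      omega
  rw [← MonoidHom.range_eq_top, eq_top_iff]
  intro z _
  have hz : z = (∏ a : Fin k, Multiplicative.ofAdd
      ((Pi.single a 1, 0) : (Fin k → ZMod p) × (Fin k × Fin k → ZMod p)) ^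
        ((Multiplicative.toAdd z).1 a).val) *
      ∏ a : Fin k × Fin k, Multiplicative.ofAdd
      ((0, Pi.single a 1) : (Fin k → ZMod p) × (Fin k × Fin k → ZMod p)) ^
        ((Multiplicative.toAdd z).2 a).val := by
    refine Multiplicative.toAdd.injective ?_
    rw [toAdd_mul, toAdd_prod, toAdd_prod]
    simp only [toAdd_pow, toAdd_ofAdd]
    refine Prod.ext ?_ ?_
    · funext b
      simp only [Prod.fst_add, Prod.fst_sum, Prod.smul_mk, smul_zero, Finset.sum_const_zero,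
        Pi.add_apply, Finset.sum_apply, Pi.smul_apply, Pi.zero_apply, add_zero]
      rw [Finset.sum_eq_single b]
      · simp
      · intro c _ hc
        rw [Pi.single_eq_of_ne (Ne.symm hc), smul_zero]
      · intro h
        exact absurd (Finset.mem_univ _) h
    · funext b
      simp only [Prod.snd_add, Prod.snd_sum, Prod.smul_mk, smul_zero, Finset.sum_const_zero,
        Pi.add_apply, Finset.sum_apply, Pi.smul_apply, Pi.zero_apply, zero_add]
      rw [Finset.sum_eq_single b]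
      · simp
      · intro c _ hc
        rw [Pi.single_eq_of_ne (Ne.symm hc), smul_zero]
      · intro h
        exact absurd (Finset.mem_univ _) h
  rw [hz]
  exact Subgroup.mul_mem _ (Subgroup.prod_mem _ fun a _ => Subgroup.pow_mem _ (hV a) _)
    (Subgroup.prod_mem _ fun a _ => Subgroup.pow_mem _ (hK a) _)

instance fg_surf (g : ℕ) : Group.FG (Surf g) := by
  classical
  have h := PresentedGroup.closure_range_of ({rel g} : Set (FreeGroup (Fin g ⊕ Fin g)))
  exact Group.fg_iff.2 ⟨_, h, Set.finite_range _⟩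

lemma rank_surf (g : ℕ) : Group.rank (Surf (g + 1)) ≤ (g + 1) + (g + 1) := by
  classical
  have h := gen_top_surf g
  set f := fun i : Fin ((g + 1) + (g + 1)) =>
    (PresentedGroup.of (finSumFinEquiv.symm i) : Surf (g + 1)) with hf
  have h1 : Subgroup.closure ((Finset.univ.image f : Finset (Surf (g + 1))) : Set (Surf (g + 1)))
      = ⊤ := by
    rw [Finset.coe_image, Finset.coe_univ, Set.image_univ]
    exact h
  refine (Group.rank_le h1).trans (Finset.card_image_le.trans ?_)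
  rw [Finset.card_univ, Fintype.card_fin]

theorem graph_data [NeZero p] (n k : ℕ) :
    ∃ (Γ0 : Subgroup (MulAut (Surf (n + 3))))
      (J : Γ0 →* Multiplicative ((Fin k → ZMod p) × (Fin k × Fin k → ZMod p)))
      (L : Subgroup (Surf (n + 3))), Γ0.index ≠ 0 ∧
      Γ0.index ≤ ((2 * k + 1) * p ^ ((2 * k + 1) * (2 * (n + 3)))) ^ (2 * (n + 3)) ∧
      Function.Surjective J ∧ (∀ (y : Surf (n + 3)) (h : MulAut.conj y ∈ Γ0),
        J ⟨MulAut.conj y, h⟩ = 1) ∧ L.Characteristic ∧ L.FiniteIndex ∧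
      ∀ ψ : MulAut (Surf (n + 3)), (∀ x, ψ x * x⁻¹ ∈ L) → ∃ h : ψ ∈ Γ0, J ⟨ψ, h⟩ = 1 := by
  have hp : 0 < p := Nat.pos_of_ne_zero (NeZero.ne p)
  set m := 2 * k + 1 with hm
  haveI : NeZero m := ⟨by omega⟩
  set Ψ := Psi n m p with hΨ
  have hgen := gen_top_surf (n + 2)
  haveI : (KK Ψ).FiniteIndex := by
    unfold KK
    exact Subgroup.finiteIndex_ker _
  have hKi : (KK Ψ).index ≤ m := by
    unfold KK
    rw [Subgroup.index_ker]
    refine (Nat.card_le_card_of_injective _ Subtype.val_injective).trans ?_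
    rw [Nat.card_eq_fintype_card, Fintype.card_multiplicative, ZMod.card]
  have hr : Group.rank (Surf (n + 3)) ≤ 2 * (n + 3) := by
    refine (rank_surf (n + 2)).trans ?_
    omega
  obtain ⟨hP0, hP1⟩ := card_Phi (p := p) (K := KK Ψ) hp hr
  haveI : (Phi p (KK Ψ)).FiniteIndex := ⟨hP0⟩
  haveI : Finite (Surf (n + 3) ⧸ Phi p (KK Ψ)) := Subgroup.finite_quotient_of_finiteIndex
  have hP2 : (Phi p (KK Ψ)).index ≤ m * p ^ (m * (2 * (n + 3))) :=
    hP1.trans (Nat.mul_le_mul hKi (Nat.pow_le_pow_right hp (Nat.mul_le_mul_right _ hKi)))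
  obtain ⟨hG0, hG1⟩ := index_Fx hgen (QuotientGroup.mk' (Phi p (KK Ψ)))
  have hG2 : (G0 Ψ).index ≤ (m * p ^ (m * (2 * (n + 3)))) ^ (2 * (n + 3)) := by
    refine hG1.trans ?_
    have e : n + 2 + 1 + (n + 2 + 1) = 2 * (n + 3) := by omega
    rw [e]
    exact Nat.pow_le_pow_left hP2 _
  obtain ⟨L, hL1, hL2, hL3⟩ := exists_char hgen ((QuotientGroup.mk' (Phi p (KK Ψ))).prod Ψ)
  have hb : Ψ (gb 0) = 1 := (Psi_ev n m p).b0
  have hJ1 : ∀ f : G0 Ψ, Ψ (f.1 (gb 0) * (gb 0)⁻¹) = 1 → Jm k Ψ f = 1 := by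
    intro f hf
    have : ∀ {α : Type} (P : α → ZMod m × ZMod m), entries Ψ (gb 0) P f.1 = 0 := by
      intro α P
      funext a
      unfold entries
      rw [hf]
      rfl
    show Multiplicative.ofAdd (entries Ψ (gb 0) (PV k m) f.1, entries Ψ (gb 0) (PK k m) f.1) = 1
    rw [this, this]
    rfl
  refine ⟨G0 Ψ, Jm k Ψ, L, hG0, hG2, Jm_surj k, ?_, hL1, hL2, ?_⟩
  · intro y h
    refine hJ1 _ ?_
    show Ψ (MulAut.conj y (gb 0) * (gb 0)⁻¹) = 1
    rw [MulAut.conj_apply, map_mul, map_mul, map_mul, map_inv, map_inv, hb]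
    group
  · intro ψ hψ
    have h1 : ∀ x, ((QuotientGroup.mk' (Phi p (KK Ψ))).prod Ψ) (ψ x * x⁻¹) = 1 := fun x =>
      hL3 (hψ x)
    have h2 : ψ ∈ G0 Ψ := by
      intro x
      have := congrArg Prod.fst (h1 x)
      change QuotientGroup.mk' (Phi p (KK Ψ)) (ψ x * x⁻¹) = 1 at this
      rw [map_mul, map_inv, mul_inv_eq_one] at this
      exact this
    exact ⟨h2, hJ1 _ (congrArg Prod.snd (h1 (gb 0)))⟩

theorem cong_many [NeZero p] (n k : ℕ) :
    ((p ^ (k * (k * k)) : ℕ) : ℕ∞) ≤ cong (Surf (n + 3))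
      (((2 * k + 1) * p ^ ((2 * k + 1) * (2 * (n + 3)))) ^ (2 * (n + 3)) * p ^ k) := by
  obtain ⟨Γ0, J, L, h1, h2, h3, h4, h5, h6, h7⟩ := graph_data (p := p) n k
  have key := many_graph Γ0 _ h1 h2 J h3 h4 L h5 h6 h7
  rw [Fintype.card_prod, Fintype.card_fin] at key
  exact key

end Pool.Agent.Helper19.GR
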