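import Pool.Graph.R_pool_sql_team_seeded_2aa45f1a.Q98.CG.Surf

/-!
# Automorphisms of surface groups: conjugates of a twist by the drag of a handle
-/

set_option autoImplicit false
set_option linter.style.haveILetI false

namespace Pool.Agent.Helper19.GR

open Pool.Agent.Q98.CG

/-- the commutator -/
def com {H : Type} [Group H] (a b : H) : H := a * b * a⁻¹ * b⁻¹

lemma com_one {H : Type} [Group H] {a b : H} (h : Commute a b) : com a b = 1 := by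
  unfold com
  rw [h.eq]
  group

variable {n : ℕ}

/-- a function on the generators -/
def six {H : Type} (x0 y0 x1 y1 x2 y2 : H) (ra rb : Fin n → H) :
    Fin (n + 3) ⊕ Fin (n + 3) → H :=
  Sum.elim (Fin.cons x0 (Fin.cons x1 (Fin.cons x2 ra))) (Fin.cons y0 (Fin.cons y1 (Fin.cons y2 rb)))

lemma prod3 {H : Type} [Group H] (f : Fin (n + 3) ⊕ Fin (n + 3) → H) :
    (List.ofFn (fun i : Fin (n + 3) =>
      f (Sum.inl i) * f (Sum.inr i) * (f (Sum.inl i))⁻¹ * (f (Sum.inr i))⁻¹)).prod =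
    com (f (Sum.inl 0)) (f (Sum.inr 0)) * (com (f (Sum.inl 1)) (f (Sum.inr 1)) *
      (com (f (Sum.inl 2)) (f (Sum.inr 2)) * (List.ofFn (fun i : Fin n =>
        com (f (Sum.inl i.succ.succ.succ)) (f (Sum.inr i.succ.succ.succ)))).prod)) := by
  rw [List.ofFn_succ, List.prod_cons, List.ofFn_succ, List.prod_cons, List.ofFn_succ,
    List.prod_cons]
  rfl

/-- the generators -/
def ga (i : Fin (n + 3)) : Surf (n + 3) := PresentedGroup.of (Sum.inl i)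
/-- the generators -/
def gb (i : Fin (n + 3)) : Surf (n + 3) := PresentedGroup.of (Sum.inr i)

/-- homomorphisms -/
def ho {H : Type} [Group H] (x0 y0 x1 y1 x2 y2 : H) (ra rb : Fin n → H)
    (h : com x0 y0 * (com x1 y1 * (com x2 y2 *
      (List.ofFn (fun i => com (ra i) (rb i))).prod)) = 1) : Surf (n + 3) →* H :=
  homS (six x0 y0 x1 y1 x2 y2 ra rb) (by rw [prod3]; exact h)

/-- the values of a homomorphism -/
structure Ev {H : Type} [Group H] (Θ : Surf (n + 3) →* H) (x0 y0 x1 y1 x2 y2 : H)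
    (ra rb : Fin n → H) : Prop where
  a0 : Θ (ga 0) = x0
  b0 : Θ (gb 0) = y0
  a1 : Θ (ga 1) = x1
  b1 : Θ (gb 1) = y1
  a2 : Θ (ga 2) = x2
  b2 : Θ (gb 2) = y2
  ra : ∀ i : Fin n, Θ (ga i.succ.succ.succ) = ra i
  rb : ∀ i : Fin n, Θ (gb i.succ.succ.succ) = rb i

lemma ho_ev {H : Type} [Group H] (x0 y0 x1 y1 x2 y2 : H) (ra rb : Fin n → H) (h) :
    Ev (ho x0 y0 x1 y1 x2 y2 ra rb h) x0 y0 x1 y1 x2 y2 ra rb := by
  refine ⟨?_, ?_, ?_, ?_, ?_, ?_, fun i => ?_, fun i => ?_⟩ <;>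
    (unfold ho; first | (rw [ga, homS_of]; rfl) | (rw [gb, homS_of]; rfl))

lemma Ev.ext {H : Type} [Group H] {Θ Θ' : Surf (n + 3) →* H} {x0 y0 x1 y1 x2 y2 : H}
    {ra rb : Fin n → H} (h : Ev Θ x0 y0 x1 y1 x2 y2 ra rb)
    (h' : Ev Θ' x0 y0 x1 y1 x2 y2 ra rb) : Θ = Θ' := by
  refine PresentedGroup.ext fun i => ?_
  rcases i with i | i
  · refine Fin.cases ?_ (fun i => Fin.cases ?_ (fun i => Fin.cases ?_ (fun i => ?_) i) i) i
    · exact h.a0.trans h'.a0.symm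
    · exact h.a1.trans h'.a1.symm
    · exact h.a2.trans h'.a2.symm
    · exact (h.ra i).trans (h'.ra i).symm
  · refine Fin.cases ?_ (fun i => Fin.cases ?_ (fun i => Fin.cases ?_ (fun i => ?_) i) i) i
    · exact h.b0.trans h'.b0.symm
    · exact h.b1.trans h'.b1.symm
    · exact h.b2.trans h'.b2.symm
    · exact (h.rb i).trans (h'.rb i).symm

lemma rel1 : com (ga 0 : Surf (n + 3)) (gb 0) * (com (ga 1) (gb 1) * (com (ga 2) (gb 2) *
    (List.ofFn (fun i : Fin n => com (ga i.succ.succ.succ) (gb i.succ.succ.succ))).prod)) = 1 := by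
  have h := rel_one (g := n + 3)
  rw [prod3 (fun i => (PresentedGroup.of i : Surf (n + 3)))] at h
  exact h

/-- the curve of the twist -/
def gam : Surf (n + 3) := gb 0 * (ga 0)⁻¹ * (gb 0)⁻¹ * ga 1

/-- the twist -/
def eH : Surf (n + 3) →* Surf (n + 3) :=
  ho (ga 0) (gam * gb 0) (gam * ga 1 * gam⁻¹) (gb 1 * gam⁻¹) (ga 2) (gb 2)
    (fun i => ga i.succ.succ.succ) (fun i => gb i.succ.succ.succ) (by
      have h := rel1 (n := n)
      rw [← mul_assoc] at h ⊢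
      have key : com (ga 0 : Surf (n + 3)) (gam * gb 0) * com (gam * ga 1 * gam⁻¹) (gb 1 * gam⁻¹) =
          com (ga 0) (gb 0) * com (ga 1) (gb 1) := by
        unfold com gam
        group
      rw [key]
      exact h)

/-- the inverse twist -/
def eH' : Surf (n + 3) →* Surf (n + 3) :=
  ho (ga 0) (gam⁻¹ * gb 0) (gam⁻¹ * ga 1 * gam) (gb 1 * gam) (ga 2) (gb 2)
    (fun i => ga i.succ.succ.succ) (fun i => gb i.succ.succ.succ) (by
      have h := rel1 (n := n)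
      rw [← mul_assoc] at h ⊢
      have key : com (ga 0 : Surf (n + 3)) (gam⁻¹ * gb 0) * com (gam⁻¹ * ga 1 * gam) (gb 1 * gam) =
          com (ga 0) (gb 0) * com (ga 1) (gb 1) := by
        unfold com gam
        group
      rw [key]
      exact h)

/-- the curve around the dragged handle -/
def xx : Surf (n + 3) := com (ga 1) (gb 1)
/-- the path of the drag -/
def uu : Surf (n + 3) := xx * ga 2

/-- the drag -/
def eP : Surf (n + 3) →* Surf (n + 3) :=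
  ho (ga 0) (gb 0) (uu * ga 1 * uu⁻¹) (uu * gb 1 * uu⁻¹) (uu * ga 2 * uu⁻¹) (gb 2 * xx⁻¹)
    (fun i => ga i.succ.succ.succ) (fun i => gb i.succ.succ.succ) (by
      have h := rel1 (n := n)
      rw [← mul_assoc (com (ga 1) (gb 1))] at h
      rw [← mul_assoc (com (uu * ga 1 * uu⁻¹) _)]
      have key : com (uu * ga 1 * uu⁻¹ : Surf (n + 3)) (uu * gb 1 * uu⁻¹) *
          com (uu * ga 2 * uu⁻¹) (gb 2 * xx⁻¹) =
          com (ga 1) (gb 1) * com (ga 2) (gb 2) := by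
        unfold uu xx com
        group
      rw [key]
      exact h)

/-- the inverse drag -/
def eP' : Surf (n + 3) →* Surf (n + 3) :=
  ho (ga 0) (gb 0) (uu⁻¹ * ga 1 * uu) (uu⁻¹ * gb 1 * uu) (uu⁻¹ * ga 2 * uu)
    (gb 2 * (uu⁻¹ * xx * uu))
    (fun i => ga i.succ.succ.succ) (fun i => gb i.succ.succ.succ) (by
      have h := rel1 (n := n)
      rw [← mul_assoc (com (ga 1) (gb 1))] at h
      rw [← mul_assoc (com (uu⁻¹ * ga 1 * uu) _)]
      have key : com (uu⁻¹ * ga 1 * uu : Surf (n + 3)) (uu⁻¹ * gb 1 * uu) *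
          com (uu⁻¹ * ga 2 * uu) (gb 2 * (uu⁻¹ * xx * uu)) =
          com (ga 1) (gb 1) * com (ga 2) (gb 2) := by
        unfold uu xx com
        group
      rw [key]
      exact h)

lemma eH_ev : Ev (eH : Surf (n + 3) →* _) (ga 0) (gam * gb 0) (gam * ga 1 * gam⁻¹) (gb 1 * gam⁻¹)
    (ga 2) (gb 2) (fun i => ga i.succ.succ.succ) (fun i => gb i.succ.succ.succ) :=
  ho_ev _ _ _ _ _ _ _ _ _
lemma eH'_ev : Ev (eH' : Surf (n + 3) →* _) (ga 0) (gam⁻¹ * gb 0) (gam⁻¹ * ga 1 * gam)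
    (gb 1 * gam) (ga 2) (gb 2) (fun i => ga i.succ.succ.succ) (fun i => gb i.succ.succ.succ) :=
  ho_ev _ _ _ _ _ _ _ _ _
lemma eP_ev : Ev (eP : Surf (n + 3) →* _) (ga 0) (gb 0) (uu * ga 1 * uu⁻¹) (uu * gb 1 * uu⁻¹)
    (uu * ga 2 * uu⁻¹) (gb 2 * xx⁻¹) (fun i => ga i.succ.succ.succ)
    (fun i => gb i.succ.succ.succ) :=
  ho_ev _ _ _ _ _ _ _ _ _
lemma eP'_ev : Ev (eP' : Surf (n + 3) →* _) (ga 0) (gb 0) (uu⁻¹ * ga 1 * uu) (uu⁻¹ * gb 1 * uu)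
    (uu⁻¹ * ga 2 * uu) (gb 2 * (uu⁻¹ * xx * uu)) (fun i => ga i.succ.succ.succ)
    (fun i => gb i.succ.succ.succ) :=
  ho_ev _ _ _ _ _ _ _ _ _

lemma id_ev : Ev (MonoidHom.id (Surf (n + 3))) (ga 0) (gb 0) (ga 1) (gb 1) (ga 2) (gb 2)
    (fun i => ga i.succ.succ.succ) (fun i => gb i.succ.succ.succ) :=
  ⟨rfl, rfl, rfl, rfl, rfl, rfl, fun _ => rfl, fun _ => rfl⟩

variable {H : Type} [Group H] {Θ : Surf (n + 3) →* H} {x0 y0 x1 y1 x2 y2 : H}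
  {ra rb : Fin n → H}

lemma Ev.gam (h : Ev Θ x0 y0 x1 y1 x2 y2 ra rb) : Θ gam = y0 * x0⁻¹ * y0⁻¹ * x1 := by
  unfold GR.gam
  simp only [map_mul, map_inv, h.a0, h.b0, h.a1]

lemma Ev.xx (h : Ev Θ x0 y0 x1 y1 x2 y2 ra rb) : Θ xx = com x1 y1 := by
  unfold GR.xx com
  simp only [map_mul, map_inv, h.a1, h.b1]

lemma Ev.uu (h : Ev Θ x0 y0 x1 y1 x2 y2 ra rb) : Θ uu = com x1 y1 * x2 := by
  unfold GR.uu
  rw [map_mul, h.xx, h.a2]

lemma Ev.compH (h : Ev Θ x0 y0 x1 y1 x2 y2 ra rb) {γ : H} (hγ : y0 * x0⁻¹ * y0⁻¹ * x1 = γ) :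
    Ev (Θ.comp eH) x0 (γ * y0) (γ * x1 * γ⁻¹) (y1 * γ⁻¹) x2 y2 ra rb := by
  have hg := h.gam
  rw [hγ] at hg
  refine ⟨?_, ?_, ?_, ?_, ?_, ?_, fun i => ?_, fun i => ?_⟩
  · rw [MonoidHom.comp_apply, eH_ev.a0, h.a0]
  · rw [MonoidHom.comp_apply, eH_ev.b0, map_mul, hg, h.b0]
  · rw [MonoidHom.comp_apply, eH_ev.a1, map_mul, map_mul, map_inv, hg, h.a1]
  · rw [MonoidHom.comp_apply, eH_ev.b1, map_mul, map_inv, hg, h.b1]
  · rw [MonoidHom.comp_apply, eH_ev.a2, h.a2]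
  · rw [MonoidHom.comp_apply, eH_ev.b2, h.b2]
  · rw [MonoidHom.comp_apply, eH_ev.ra, h.ra]
  · rw [MonoidHom.comp_apply, eH_ev.rb, h.rb]

lemma Ev.compH' (h : Ev Θ x0 y0 x1 y1 x2 y2 ra rb) {γ : H} (hγ : y0 * x0⁻¹ * y0⁻¹ * x1 = γ) :
    Ev (Θ.comp eH') x0 (γ⁻¹ * y0) (γ⁻¹ * x1 * γ) (y1 * γ) x2 y2 ra rb := by
  have hg := h.gam
  rw [hγ] at hg
  refine ⟨?_, ?_, ?_, ?_, ?_, ?_, fun i => ?_, fun i => ?_⟩
  · rw [MonoidHom.comp_apply, eH'_ev.a0, h.a0]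
  · rw [MonoidHom.comp_apply, eH'_ev.b0, map_mul, map_inv, hg, h.b0]
  · rw [MonoidHom.comp_apply, eH'_ev.a1, map_mul, map_mul, map_inv, hg, h.a1]
  · rw [MonoidHom.comp_apply, eH'_ev.b1, map_mul, hg, h.b1]
  · rw [MonoidHom.comp_apply, eH'_ev.a2, h.a2]
  · rw [MonoidHom.comp_apply, eH'_ev.b2, h.b2]
  · rw [MonoidHom.comp_apply, eH'_ev.ra, h.ra]
  · rw [MonoidHom.comp_apply, eH'_ev.rb, h.rb]

lemma Ev.compP0 (h : Ev Θ x0 y0 x1 y1 x2 y2 ra rb) {u x : H} (hx : com x1 y1 = x)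
    (hu : x * x2 = u) :
    Ev (Θ.comp eP) x0 y0 (u * x1 * u⁻¹) (u * y1 * u⁻¹) (u * x2 * u⁻¹) (y2 * x⁻¹) ra rb := by
  have hxx := h.xx
  have huu := h.uu
  rw [hx] at hxx huu
  rw [hu] at huu
  refine ⟨?_, ?_, ?_, ?_, ?_, ?_, fun i => ?_, fun i => ?_⟩
  · rw [MonoidHom.comp_apply, eP_ev.a0, h.a0]
  · rw [MonoidHom.comp_apply, eP_ev.b0, h.b0]
  · rw [MonoidHom.comp_apply, eP_ev.a1, map_mul, map_mul, map_inv, huu, h.a1]
  · rw [MonoidHom.comp_apply, eP_ev.b1, map_mul, map_mul, map_inv, huu, h.b1]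
  · rw [MonoidHom.comp_apply, eP_ev.a2, map_mul, map_mul, map_inv, huu, h.a2]
  · rw [MonoidHom.comp_apply, eP_ev.b2, map_mul, map_inv, hxx, h.b2]
  · rw [MonoidHom.comp_apply, eP_ev.ra, h.ra]
  · rw [MonoidHom.comp_apply, eP_ev.rb, h.rb]

lemma Ev.compP0' (h : Ev Θ x0 y0 x1 y1 x2 y2 ra rb) {u x : H} (hx : com x1 y1 = x)
    (hu : x * x2 = u) :
    Ev (Θ.comp eP') x0 y0 (u⁻¹ * x1 * u) (u⁻¹ * y1 * u) (u⁻¹ * x2 * u) (y2 * (u⁻¹ * x * u))
      ra rb := by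
  have hxx := h.xx
  have huu := h.uu
  rw [hx] at hxx huu
  rw [hu] at huu
  refine ⟨?_, ?_, ?_, ?_, ?_, ?_, fun i => ?_, fun i => ?_⟩
  · rw [MonoidHom.comp_apply, eP'_ev.a0, h.a0]
  · rw [MonoidHom.comp_apply, eP'_ev.b0, h.b0]
  · rw [MonoidHom.comp_apply, eP'_ev.a1, map_mul, map_mul, map_inv, huu, h.a1]
  · rw [MonoidHom.comp_apply, eP'_ev.b1, map_mul, map_mul, map_inv, huu, h.b1]
  · rw [MonoidHom.comp_apply, eP'_ev.a2, map_mul, map_mul, map_inv, huu, h.a2]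
  · rw [MonoidHom.comp_apply, eP'_ev.b2, map_mul, map_mul, map_mul, map_inv, hxx, huu, h.b2]
  · rw [MonoidHom.comp_apply, eP'_ev.ra, h.ra]
  · rw [MonoidHom.comp_apply, eP'_ev.rb, h.rb]

lemma ev_cast (h : Ev Θ x0 y0 x1 y1 x2 y2 ra rb) {x0' y0' x1' y1' x2' y2' : H}
    (e0 : x0 = x0') (e1 : y0 = y0') (e2 : x1 = x1') (e3 : y1 = y1') (e4 : x2 = x2')
    (e5 : y2 = y2') : Ev Θ x0' y0' x1' y1' x2' y2' ra rb := by
  subst e0 e1 e2 e3 e4 e5
  exact h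

lemma H_comp : (eH : Surf (n + 3) →* _).comp eH' = MonoidHom.id _ := by
  refine Ev.ext (ev_cast (eH_ev.compH' rfl) rfl ?_ ?_ ?_ rfl rfl) id_ev
  all_goals (unfold gam; group)

lemma H_comp' : (eH' : Surf (n + 3) →* _).comp eH = MonoidHom.id _ := by
  refine Ev.ext (ev_cast (eH'_ev.compH rfl) rfl ?_ ?_ ?_ rfl rfl) id_ev
  all_goals (unfold gam; group)

lemma P_comp : (eP : Surf (n + 3) →* _).comp eP' = MonoidHom.id _ := by
  refine Ev.ext (ev_cast (eP_ev.compP0' rfl rfl) rfl rfl ?_ ?_ ?_ ?_) id_ev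
  all_goals (unfold uu xx com; group)

lemma P_comp' : (eP' : Surf (n + 3) →* _).comp eP = MonoidHom.id _ := by
  refine Ev.ext (ev_cast (eP'_ev.compP0 rfl rfl) rfl rfl ?_ ?_ ?_ ?_) id_ev
  all_goals (unfold uu xx com; group)

/-- the twist -/
def aH : MulAut (Surf (n + 3)) := MonoidHom.toMulEquiv eH eH' H_comp' H_comp
/-- the drag -/
def aP : MulAut (Surf (n + 3)) := MonoidHom.toMulEquiv eP eP' P_comp' P_comp

end Pool.Agent.Helper19.GR
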